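import Mathlib

set_option autoImplicit false

open MvPolynomial

namespace Pool.Agent.H74.Secant

universe u

/-- A label: `single i` stands for `e_i` and `diff j k` stands for `e_j - e_k`. -/
inductive Label (N : ℕ) : Type
  | single (i : Fin N) : Label N
  | diff (j k : Fin N) : Label N

/-- The indices occurring in a label. -/
def Label.indices {N : ℕ} : Label N → Finset (Fin N)
  | .single i => {i}
  | .diff j k => {j, k}

section Graph

variable {V : Type} [Fintype V] (G : SimpleGraph V) [DecidableRel G.Adj]

/-- The hypotheses on the graph: connected, (simple and) triangle-free, maximum degree at most `3`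
with some vertex of degree less than `3`, and every path joining two distinct vertices of degree
`3` has at least `3` edges. -/
structure IsAdmissible : Prop where
  connected : G.Connected
  triangle_free : G.CliqueFree 3
  degree_le : ∀ v, G.degree v ≤ 3
  exists_degree_lt : ∃ v, G.degree v < 3
  three_le_length : ∀ u v, u ≠ v → G.degree u = 3 → G.degree v = 3 →
    ∀ p : G.Walk u v, p.IsPath → 3 ≤ p.length

/-- The edges of `G̃`: the edges of `G`, and a loop at each vertex of degree `1`. -/
def extEdges : Set (Sym2 V) :=
  G.edgeSet ∪ {e | ∃ v, G.degree v = 1 ∧ e = s(v, v)}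

variable {N : ℕ} (lab : Sym2 V → Label N)

/-- `lab` labels the edges of `G̃` with labels in `N = d - g + 1` indices, where `d` and `m` are the
numbers of vertices and edges of `G` and `g = m - d + 1` (so that `N = 2 d - m`):
the three edges at a vertex of degree `3` get labels `e_j`, `e_k`, `e_j - e_k` with `j ≠ k`; each
edge without a vertex of degree `3` gets a label `e_i`; and two different edges share an index only
if they have a vertex of degree `3` in common. -/
structure IsLabelling : Prop where
  card : N + G.edgeFinset.card = 2 * Fintype.card V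
  trivalent : ∀ v, G.degree v = 3 → ∃ (a b c : V) (j k : Fin N),
    (∀ w, G.Adj v w ↔ w = a ∨ w = b ∨ w = c) ∧ j ≠ k ∧
      lab s(v, a) = .single j ∧ lab s(v, b) = .single k ∧ lab s(v, c) = .diff j k
  other : ∀ e ∈ extEdges G, (∀ v ∈ e, G.degree v ≠ 3) → ∃ i, lab e = .single i
  unused : ∀ e ∈ extEdges G, ∀ e' ∈ extEdges G, e ≠ e' →
    (∃ i, i ∈ (lab e).indices ∧ i ∈ (lab e').indices) → ∃ v, v ∈ e ∧ v ∈ e' ∧ G.degree v = 3

variable (K : Type u) [Field K]

/-- The line `L_v` (as the affine cone over it, a subset of `K ^ N`): the common zeros of all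
variables `x_i` such that `i` occurs in no label of an edge of `G̃` at `v` and, if the degree of `v`
is not `3`, of the form `x_j - x_k` for each edge of `G̃` at `v` labelled `e_j - e_k`. -/
def lineCone (v : V) : Set (Fin N → K) :=
  {z | (∀ i, (∀ e ∈ extEdges G, v ∈ e → i ∉ (lab e).indices) → z i = 0) ∧
    (G.degree v ≠ 3 → ∀ e ∈ extEdges G, v ∈ e → ∀ j k, lab e = .diff j k → z j = z k)}

/-- The graph curve `C_G` (as the affine cone over it): the union of the lines `L_v`. -/
def graphCurve : Set (Fin N → K) := ⋃ v, lineCone G lab K v

end Graph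

section Secant

variable {K : Type u} [Field K] {N : ℕ}

/-- The Hilbert function of `S / J`: the dimension of `S_t / (J ∩ S_t)`, where `S_t` is the space of
homogeneous polynomials of degree `t` in `N` variables. -/
noncomputable def hilbertFn (J : Ideal (MvPolynomial (Fin N) K)) (t : ℕ) : ℕ :=
  Module.finrank K (homogeneousSubmodule (Fin N) K t ⧸
    (Submodule.comap (homogeneousSubmodule (Fin N) K t).subtype (J.restrictScalars K)))

/-- The plane with affine cone the linear subspace `Λ` meets the reduced projective scheme with
affine cone `X` in a zero-dimensional scheme of length `ℓ` (empty if `ℓ = 0`): the homogeneous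
ideal `I(X) + I(Λ)` has constant Hilbert polynomial `ℓ`. -/
def MeetsInLength (X : Set (Fin N → K)) (Λ : Submodule K (Fin N → K)) (ℓ : ℕ) : Prop :=
  ∀ᶠ t in Filter.atTop,
    hilbertFn (vanishingIdeal K X ⊔ vanishingIdeal K (Λ : Set (Fin N → K))) t = ℓ

/-- The union (of the affine cones) of all `k`-planes that meet `X` in a zero-dimensional scheme of
length at least `k + 1`. -/
def secantUnion (k : ℕ) (X : Set (Fin N → K)) : Set (Fin N → K) :=
  {z | ∃ Λ : Submodule K (Fin N → K), Module.finrank K Λ = k + 1 ∧
    (∃ ℓ, k + 1 ≤ ℓ ∧ MeetsInLength X Λ ℓ) ∧ z ∈ Λ}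

/-- The secant variety `Σ_k(X)` (as the affine cone over it): the Zariski closure of
`secantUnion k X`. -/
def secantVariety (k : ℕ) (X : Set (Fin N → K)) : Set (Fin N → K) :=
  zeroLocus K (vanishingIdeal K (secantUnion k X))

/-- `f` is a product of linear forms. -/
def IsProductOfLinearForms (f : MvPolynomial (Fin N) K) : Prop :=
  ∃ l : List (MvPolynomial (Fin N) K), (∀ g ∈ l, g.IsHomogeneous 1) ∧ l.prod = f

/-- `J` has a generating set that consists of products of linear forms. -/
def GeneratedByProducts (J : Ideal (MvPolynomial (Fin N) K)) : Prop :=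
  ∃ T : Set (MvPolynomial (Fin N) K), (∀ f ∈ T, IsProductOfLinearForms f) ∧ Ideal.span T = J

end Secant

end Pool.Agent.H74.Secant
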