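import Mathlib
import Pool.Agent.H74.Secant.Defs

set_option autoImplicit false

open MvPolynomial

namespace Pool.Agent.H74.Secant

universe u

variable {K : Type u} [Field K] {N : ℕ}

/-- Two linear functionals that agree on all `X i * h`, `h` homogeneous of degree `n`, agree on
homogeneous polynomials of degree `n + 1`. -/
theorem hom_ext (φ ψ : MvPolynomial (Fin N) K →ₗ[K] K) (n : ℕ)
    (H : ∀ h : MvPolynomial (Fin N) K, h.IsHomogeneous n → ∀ i, φ (X i * h) = ψ (X i * h))
    (f : MvPolynomial (Fin N) K) (hf : f.IsHomogeneous (n + 1)) : φ f = ψ f := by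
  rw [f.as_sum, map_sum, map_sum]
  refine Finset.sum_congr rfl fun m hm => ?_
  have hdeg : m.degree = n + 1 := by
    have := hf (mem_support_iff.mp hm)
    rwa [Finsupp.degree_eq_weight_one, ← Pi.one_def]
  obtain ⟨i, hi⟩ : ∃ i, m i ≠ 0 := by
    by_contra hcon
    push Not at hcon
    have : m = 0 := by ext i; simpa using hcon i
    rw [this] at hdeg
    simp at hdeg
  have hle : Finsupp.single i 1 ≤ m := by
    rw [Finsupp.single_le_iff]
    omega
  have hm' : m = Finsupp.single i 1 + (m - Finsupp.single i 1) :=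
    (add_tsub_cancel_of_le hle).symm
  have key : monomial m (coeff m f) = X i * monomial (m - Finsupp.single i 1) (coeff m f) := by
    rw [X, monomial_mul, one_mul, ← hm']
  rw [key]
  apply H
  apply isHomogeneous_monomial
  have : (Finsupp.single i 1 + (m - Finsupp.single i 1)).degree = n + 1 := by
    rw [← hm', hdeg]
  rw [map_add, Finsupp.degree_single] at this
  omega

/-- If `θ (X i * h)` is, as a function of `i`, always a multiple of the vector `p`, then `θ` is a
multiple of the evaluation at `p`. -/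
theorem ev_aux (p : Fin N → K) (i₀ : Fin N) (n : ℕ) :
    ∀ θ : MvPolynomial (Fin N) K →ₗ[K] K,
    (∀ h : MvPolynomial (Fin N) K, h.IsHomogeneous n → ∀ i,
      p i₀ * θ (X i * h) = p i * θ (X i₀ * h)) →
    ∀ f : MvPolynomial (Fin N) K, f.IsHomogeneous (n + 1) →
      p i₀ ^ (n + 1) * θ f = aeval p f * θ (X i₀ ^ (n + 1)) := by
  induction n with
  | zero =>
    intro θ H f hf
    have := hom_ext (p i₀ • θ) (θ (X i₀) • (aeval p).toLinearMap) 0 (fun h hh i => by
      have h0 : h = C (coeff 0 h) := by
        rw [← totalDegree_eq_zero_iff_eq_C]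
        exact Nat.le_zero.mp hh.totalDegree_le
      simp only [LinearMap.smul_apply, smul_eq_mul, AlgHom.toLinearMap_apply, map_mul, aeval_X]
      rw [H h hh i, h0]
      rw [mul_comm (X i₀), ← smul_eq_C_mul, map_smul, aeval_C]
      simp
      ring) f hf
    simpa [mul_comm] using this
  | succ n ih =>
    intro θ H f hf
    set θ' : MvPolynomial (Fin N) K →ₗ[K] K := θ.comp (LinearMap.mulLeft K (X i₀)) with hθ'
    have h1 := ih θ' (fun h hh i => by
      simp only [hθ', LinearMap.comp_apply, LinearMap.mulLeft_apply]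
      have := H (X i₀ * h) (by
        have := (isHomogeneous_X K i₀).mul hh
        rwa [add_comm] at this) i
      rw [← this]
      congr 2
      ring)
    have := hom_ext (p i₀ ^ (n + 1 + 1) • θ)
      (θ (X i₀ ^ (n + 1 + 1)) • (aeval p).toLinearMap) (n + 1) (fun h hh i => by
      simp only [LinearMap.smul_apply, smul_eq_mul, AlgHom.toLinearMap_apply, map_mul, aeval_X]
      have e1 := H h hh i
      have e2 := h1 h hh
      simp only [hθ', LinearMap.comp_apply, LinearMap.mulLeft_apply] at e2
      rw [← pow_succ'] at e2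
      calc p i₀ ^ (n + 1 + 1) * θ (X i * h) = p i₀ ^ (n + 1) * (p i₀ * θ (X i * h)) := by ring
        _ = p i * (p i₀ ^ (n + 1) * θ (X i₀ * h)) := by rw [e1]; ring
        _ = _ := by rw [e2]; ring) f hf
    simpa [mul_comm] using this

theorem ev_zero (p : Fin N → K) (i₀ : Fin N) (hp : p i₀ ≠ 0) (n : ℕ)
    (θ : MvPolynomial (Fin N) K →ₗ[K] K)
    (H : ∀ h : MvPolynomial (Fin N) K, h.IsHomogeneous n → ∀ i,
      p i₀ * θ (X i * h) = p i * θ (X i₀ * h))
    (h0 : θ (X i₀ ^ (n + 1)) = 0)
    (f : MvPolynomial (Fin N) K) (hf : f.IsHomogeneous (n + 1)) : θ f = 0 := by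
  have := ev_aux p i₀ n θ H f hf
  rw [h0, mul_zero] at this
  exact (mul_eq_zero.mp this).resolve_left (pow_ne_zero _ hp)

theorem zero_of_mul_zero (n : ℕ) (θ : MvPolynomial (Fin N) K →ₗ[K] K)
    (H : ∀ h : MvPolynomial (Fin N) K, h.IsHomogeneous n → ∀ i, θ (X i * h) = 0)
    (f : MvPolynomial (Fin N) K) (hf : f.IsHomogeneous (n + 1)) : θ f = 0 := by
  have := hom_ext θ 0 n (fun h hh i => by simpa using H h hh i) f hf
  simpa using this


instance finite_hom (t : ℕ) : Module.Finite K (homogeneousSubmodule (Fin N) K t) :=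
  Module.Finite.iff_fg.mpr (homogeneousSubmodule_fg (Fin N) K t)

/-- `J ∩ S_t` as a subspace of `S_t`. -/
noncomputable def piece (J : Ideal (MvPolynomial (Fin N) K)) (t : ℕ) :
    Submodule K (homogeneousSubmodule (Fin N) K t) :=
  Submodule.comap (homogeneousSubmodule (Fin N) K t).subtype (J.restrictScalars K)

theorem hilbertFn_eq (J : Ideal (MvPolynomial (Fin N) K)) (t : ℕ) :
    hilbertFn J t = Module.finrank K (homogeneousSubmodule (Fin N) K t ⧸ piece J t) := rfl

theorem mem_piece {J : Ideal (MvPolynomial (Fin N) K)} {t : ℕ}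
    {f : homogeneousSubmodule (Fin N) K t} : f ∈ piece J t ↔ (f : MvPolynomial (Fin N) K) ∈ J :=
  Iff.rfl

/-- If a whole line lies in `X` and in `Λ` then the Hilbert function is at least `t + 1`. -/
theorem line_bound [Infinite K] (J : Ideal (MvPolynomial (Fin N) K)) (p q : Fin N → K)
    (hJ : ∀ f ∈ J, ∀ s : K, aeval (p + s • q) f = 0) (i j : Fin N)
    (hpi : p i = 1) (hpj : p j = 0) (hqi : q i = 0) (hqj : q j = 1) (t : ℕ) :
    t + 1 ≤ hilbertFn J t := by
  rw [hilbertFn_eq]
  let b : Fin (t + 1) → homogeneousSubmodule (Fin N) K t := fun a =>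
    ⟨X i ^ (t - (a : ℕ)) * X j ^ (a : ℕ), by
      have h1 := (isHomogeneous_X_pow (R := K) i (t - (a : ℕ))).mul
        (isHomogeneous_X_pow (R := K) j (a : ℕ))
      have h2 : t - (a : ℕ) + (a : ℕ) = t := by omega
      rw [h2] at h1
      exact h1⟩
  have hli : LinearIndependent K (fun a => (piece J t).mkQ (b a)) := by
    rw [Fintype.linearIndependent_iff]
    intro c hc
    have h1 : (piece J t).mkQ (∑ a, c a • b a) = 0 := by
      rw [map_sum]
      simpa using hc
    rw [Submodule.mkQ_apply, Submodule.Quotient.mk_eq_zero, mem_piece] at h1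
    have h2 : ∀ s : K, ∑ a : Fin (t + 1), c a * s ^ (a : ℕ) = 0 := by
      intro s
      have := hJ _ h1 s
      simpa [b, hpi, hpj, hqi, hqj, map_sum] using this
    have h3 : (∑ a : Fin (t + 1), Polynomial.C (c a) * Polynomial.X ^ (a : ℕ)) = 0 := by
      apply Polynomial.funext
      intro s
      simpa [Polynomial.eval_finsetSum] using h2 s
    intro a
    have h4 := congrArg (fun P => Polynomial.coeff P (a : ℕ)) h3
    simp only [Polynomial.finsetSum_coeff, Polynomial.coeff_C_mul, Polynomial.coeff_X_pow,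
      Polynomial.coeff_zero] at h4
    rw [Finset.sum_eq_single a] at h4
    · simpa using h4
    · intro a' _ hne
      rw [if_neg, mul_zero]
      intro h
      exact hne (Fin.ext h.symm)
    · simp
  have := hli.fintype_card_le_finrank
  simpa using this

/-- A functional separating a polynomial from an ideal. -/
theorem exists_functional (J : Ideal (MvPolynomial (Fin N) K)) (f : MvPolynomial (Fin N) K)
    (hf : f ∉ J) : ∃ ω : MvPolynomial (Fin N) K →ₗ[K] K, (∀ g ∈ J, ω g = 0) ∧ ω f ≠ 0 := by
  have hf' : f ∉ J.restrictScalars K := hf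
  obtain ⟨ω, h1, h2⟩ := Submodule.exists_dual_map_eq_bot_of_notMem hf' inferInstance
  refine ⟨ω, fun g hg => ?_, h1⟩
  have : ω g ∈ Submodule.map ω (J.restrictScalars K) := Submodule.mem_map_of_mem hg
  rw [h2] at this
  simpa using this

section Points

variable {ι : Type} [Fintype ι] [DecidableEq ι] (P : ι → Fin N → K)
  (J : Ideal (MvPolynomial (Fin N) K))

theorem points_lin (hdisj : ∀ i, ∀ j j', j ≠ j' → P j i = 0 ∨ P j' i = 0)
    (hlin : ∀ w : Fin N → K, (∀ j, ∑ i, w i * P j i = 0) → ∑ i, C (w i) * X i ∈ J)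
    (j : ι) (i i' : Fin N) (hi : P j i ≠ 0) (hi' : ∀ j', j' ≠ j → P j' i' = 0) :
    C (P j i) * X i' - C (P j i') * X i ∈ J := by
  have := hlin (P j i • Pi.single i' 1 - P j i' • Pi.single i 1) (fun j' => by
    simp only [Pi.sub_apply, Pi.smul_apply, smul_eq_mul, sub_mul, Finset.sum_sub_distrib]
    simp only [Pi.single_apply, mul_ite, mul_one, mul_zero, ite_mul, zero_mul,
      Finset.sum_ite_eq', Finset.mem_univ, if_true]
    by_cases h : j' = j
    · subst h; ring
    · rw [hi' j' h, (hdisj i j' j h).resolve_right hi]; ring)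
  have h2 : (∑ k, C ((P j i • Pi.single i' 1 - P j i' • Pi.single i 1 : Fin N → K) k) *
      (X k : MvPolynomial (Fin N) K)) = C (P j i) * X i' - C (P j i') * X i := by
    simp only [Pi.sub_apply, Pi.smul_apply, smul_eq_mul, map_sub, map_mul, sub_mul,
      Finset.sum_sub_distrib]
    simp only [Pi.single_apply, mul_ite, mul_one, mul_zero, ite_mul, zero_mul,
      Finset.sum_ite_eq', Finset.sum_ite_eq, Finset.mem_univ, if_true, apply_ite C, map_one,
      map_zero]
  rwa [h2] at this

theorem points_sq (hdisj : ∀ i, ∀ j j', j ≠ j' → P j i = 0 ∨ P j' i = 0)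
    (hlin : ∀ w : Fin N → K, (∀ j, ∑ i, w i * P j i = 0) → ∑ i, C (w i) * X i ∈ J)
    (hcross : ∀ j j', j ≠ j' → ∃ i i', P j i ≠ 0 ∧ P j' i' ≠ 0 ∧
      (X i * X i' : MvPolynomial (Fin N) K) ∈ J)
    (j : ι) (i i' : Fin N) (hi : P j i ≠ 0) :
    C (P j i) * (X i * X i') - C (P j i') * (X i * X i) ∈ J := by
  by_cases h : ∀ j', j' ≠ j → P j' i' = 0
  · have := Ideal.mul_mem_left J (X i) (points_lin P J hdisj hlin j i i' hi h)
    convert this using 1
    ring
  · push Not at h
    obtain ⟨j', hne, hj'⟩ := h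
    obtain ⟨a, b, ha, hb, hab⟩ := hcross j j' hne.symm
    have h1 : P j i' = 0 := (hdisj i' j j' hne.symm).resolve_right hj'
    have e1 := points_lin P J hdisj hlin j a i ha (fun j'' hj'' =>
      (hdisj i j'' j hj'').resolve_right hi)
    have e2 := points_lin P J hdisj hlin j' b i' hb (fun j'' hj'' =>
      (hdisj i' j'' j' hj'').resolve_right hj')
    have e3 : C (P j a * P j' b) * (X i * X i' : MvPolynomial (Fin N) K) ∈ J := by
      have : C (P j a * P j' b) * (X i * X i' : MvPolynomial (Fin N) K) =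
          (C (P j a) * X i - C (P j i) * X a) * (C (P j' b) * X i') +
          (C (P j i) * X a) * (C (P j' b) * X i' - C (P j' i') * X b) +
          (C (P j i) * C (P j' i')) * (X a * X b) := by
        rw [map_mul]; ring
      rw [this]
      exact J.add_mem (J.add_mem (J.mul_mem_right _ e1) (J.mul_mem_left _ e2))
        (J.mul_mem_left _ hab)
    have e4 : (X i * X i' : MvPolynomial (Fin N) K) ∈ J := by
      have h5 := J.mul_mem_left (C (P j a * P j' b)⁻¹) e3
      rw [← mul_assoc, ← map_mul, inv_mul_cancel₀ (mul_ne_zero ha hb), map_one, one_mul] at h5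
      exact h5
    rw [h1, map_zero, zero_mul, sub_zero]
    exact J.mul_mem_left _ e4

theorem points_mem (hdisj : ∀ i, ∀ j j', j ≠ j' → P j i = 0 ∨ P j' i = 0)
    (hlin : ∀ w : Fin N → K, (∀ j, ∑ i, w i * P j i = 0) → ∑ i, C (w i) * X i ∈ J)
    (hcross : ∀ j j', j ≠ j' → ∃ i i', P j i ≠ 0 ∧ P j' i' ≠ 0 ∧
      (X i * X i' : MvPolynomial (Fin N) K) ∈ J)
    (hne : ∀ j, ∃ i, P j i ≠ 0)
    (n : ℕ) (f : MvPolynomial (Fin N) K) (hf : f.IsHomogeneous (n + 2))
    (hf0 : ∀ j, aeval (P j) f = 0) : f ∈ J := by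
  classical
  by_contra hcon
  obtain ⟨ω, hω, hωf⟩ := exists_functional J f hcon
  apply hωf
  choose c hc using hne
  -- value of ω on `X i * h`
  have key : ∀ (j : ι) (i : Fin N), P j i ≠ 0 → ∀ h : MvPolynomial (Fin N) K,
      h.IsHomogeneous (n + 1) →
      P j i ^ (n + 1) * ω (X i * h) = aeval (P j) h * ω (X i * X i ^ (n + 1)) := by
    intro j i hi h hh
    have := ev_aux (P j) i n (ω.comp (LinearMap.mulLeft K (X i))) (fun g _ k => by
      simp only [LinearMap.comp_apply, LinearMap.mulLeft_apply]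
      have e := hω _ (J.mul_mem_right g (points_sq P J hdisj hlin hcross j i k hi))
      have e' : (C (P j i) * (X i * X k) - C (P j k) * (X i * X i)) * g =
        P j i • (X i * (X k * g)) - P j k • (X i * (X i * g)) := by
        rw [smul_eq_C_mul, smul_eq_C_mul]; ring
      rw [e', map_sub, map_smul, map_smul, sub_eq_zero] at e
      simpa using e) h hh
    simpa using this
  have hrel : ∀ (j : ι) (i : Fin N), P j i ≠ 0 →
      P j (c j) * (P j (c j)) ^ (n + 1) * ω (X i * X i ^ (n + 1)) =
      P j i * (P j i) ^ (n + 1) * ω (X (c j) * X (c j) ^ (n + 1)) := by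
    intro j i hi
    have e1 := key j i hi (X (c j) ^ (n + 1)) (isHomogeneous_X_pow _ _)
    have e := hω _ (J.mul_mem_right (X (c j) ^ (n + 1))
      (points_lin P J hdisj hlin j (c j) i (hc j) (fun j' hj' =>
        (hdisj i j' j hj').resolve_right hi)))
    have e' : (C (P j (c j)) * X i - C (P j i) * X (c j)) * X (c j) ^ (n + 1) =
        P j (c j) • (X i * X (c j) ^ (n + 1)) - P j i • (X (c j) * X (c j) ^ (n + 1)) := by
      rw [smul_eq_C_mul, smul_eq_C_mul]; ring
    rw [e', map_sub, map_smul, map_smul, sub_eq_zero] at e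
    simp only [map_pow, aeval_X, smul_eq_mul] at e1 e
    calc P j (c j) * (P j (c j)) ^ (n + 1) * ω (X i * X i ^ (n + 1))
        = P j (c j) * (P j (c j) ^ (n + 1) * ω (X i * X i ^ (n + 1))) := by ring
      _ = P j (c j) * (P j i ^ (n + 1) * ω (X i * X (c j) ^ (n + 1))) := by rw [e1]
      _ = P j i ^ (n + 1) * (P j (c j) * ω (X i * X (c j) ^ (n + 1))) := by ring
      _ = _ := by rw [e]; ring
  let μ : ι → K := fun j => ω (X (c j) * X (c j) ^ (n + 1)) / (P j (c j) * P j (c j) ^ (n + 1))
  have main := hom_ext ω (∑ j, μ j • (aeval (P j)).toLinearMap) (n + 1) (fun h hh i => by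
    simp only [LinearMap.sum_apply, LinearMap.smul_apply, AlgHom.toLinearMap_apply, map_mul,
      aeval_X, smul_eq_mul]
    by_cases hi : ∃ j, P j i ≠ 0
    · obtain ⟨j, hj⟩ := hi
      rw [Finset.sum_eq_single j]
      · have e1 := key j i hj h hh
        have e2 := hrel j i hj
        have hcj := hc j
        have e3 : ω (X i * X i ^ (n + 1)) = P j i * (P j i) ^ (n + 1) * μ j := by
          simp only [μ]
          field_simp
          linear_combination e2
        rw [e3] at e1
        have hp : P j i ^ (n + 1) ≠ 0 := pow_ne_zero _ hj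
        apply mul_left_cancel₀ hp
        rw [e1]; ring
      · intro j' _ hne'
        rw [(hdisj i j' j hne').resolve_right hj]; ring
      · simp
    · push Not at hi
      have : (X i : MvPolynomial (Fin N) K) ∈ J := by
        have := hlin (Pi.single i 1) (fun j => by
          simp [Pi.single_apply, hi j])
        simpa [Pi.single_apply, apply_ite C] using this
      rw [hω _ (J.mul_mem_right h this)]
      symm
      apply Finset.sum_eq_zero
      intro j _
      rw [hi j]; ring) f hf
  rw [main]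
  simp only [LinearMap.sum_apply, LinearMap.smul_apply, AlgHom.toLinearMap_apply, smul_eq_mul]
  apply Finset.sum_eq_zero
  intro j _
  rw [hf0 j, mul_zero]

/-- The Hilbert function of a set of points with disjoint supports. -/
theorem points_hilb (hdisj : ∀ i, ∀ j j', j ≠ j' → P j i = 0 ∨ P j' i = 0)
    (hlin : ∀ w : Fin N → K, (∀ j, ∑ i, w i * P j i = 0) → ∑ i, C (w i) * X i ∈ J)
    (hcross : ∀ j j', j ≠ j' → ∃ i i', P j i ≠ 0 ∧ P j' i' ≠ 0 ∧
      (X i * X i' : MvPolynomial (Fin N) K) ∈ J)
    (hne : ∀ j, ∃ i, P j i ≠ 0) (hJ : ∀ f ∈ J, ∀ j, aeval (P j) f = 0) (n : ℕ) :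
    hilbertFn J (n + 2) = Fintype.card ι := by
  classical
  rw [hilbertFn_eq]
  let ev : homogeneousSubmodule (Fin N) K (n + 2) →ₗ[K] (ι → K) :=
    LinearMap.pi fun j => (aeval (P j)).toLinearMap.comp (Submodule.subtype _)
  have hker : piece J (n + 2) = LinearMap.ker ev := by
    ext f
    rw [mem_piece, LinearMap.mem_ker]
    constructor
    · intro hf
      funext j
      simpa [ev] using hJ _ hf j
    · intro hf
      refine points_mem P J hdisj hlin hcross hne n f f.2 fun j => ?_
      simpa [ev] using congrFun hf j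
  have hsurj : Function.Surjective ev := by
    intro y
    choose c hc using hne
    refine ⟨∑ j, (y j / P j (c j) ^ (n + 2)) •
      (⟨X (c j) ^ (n + 2), isHomogeneous_X_pow _ _⟩ :
        homogeneousSubmodule (Fin N) K (n + 2)), ?_⟩
    funext j
    rw [map_sum]
    simp only [map_smul, Finset.sum_apply, Pi.smul_apply, smul_eq_mul]
    rw [Finset.sum_eq_single j]
    · simp [ev, pow_ne_zero _ (hc j)]
    · intro j' _ hne'
      have : P j (c j') = 0 := (hdisj (c j') j j' hne'.symm).resolve_right (hc j')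
      simp [ev, this]
    · simp
  rw [hker, (LinearMap.quotKerEquivOfSurjective ev hsurj).finrank_eq]
  simp

end Points

end Pool.Agent.H74.Secant
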