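import Mathlib
import Pool.Agent.H74.Secant.Poly

set_option autoImplicit false

open MvPolynomial

namespace Pool.Agent.H74.Secant

universe u

/-- The vertices of the theta graph with three paths of four edges: the two vertices `S s` of
degree three, and on the path number `x` the three vertices `E x 0`, `M x`, `E x 1`. -/
inductive Vx : Type
  | S (s : Fin 2) : Vx
  | E (x : Fin 3) (s : Fin 2) : Vx
  | M (x : Fin 3) : Vx
  deriving DecidableEq, Fintype

open Vx

/-- star coordinates -/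
def st (s r : Fin 2) : Fin 10 := ⟨2 * s + r, by omega⟩
/-- interior coordinates -/
def inn (x : Fin 3) (s : Fin 2) : Fin 10 := ⟨4 + 2 * x + s, by omega⟩

/-- base coordinate of the node of path `x` at the star `s` -/
def bs : Fin 3 → Fin 2 → Fin 10
  | 0, s => st s 0
  | 1, s => st s 1
  | 2, s => st s 0

def supp : Vx → Finset (Fin 10)
  | S s => {st s 0, st s 1}
  | E 0 s => {st s 0, inn 0 s}
  | E 1 s => {st s 1, inn 1 s}
  | E 2 s => {st s 0, st s 1, inn 2 s}
  | M x => {inn x 0, inn x 1}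

def i0 : Vx → Fin 10
  | S s => st s 0
  | E x s => bs x s
  | M x => inn x 0

def i1 : Vx → Fin 10
  | S s => st s 1
  | E x s => inn x s
  | M x => inn x 1

variable {K : Type u} [Field K]

/-- The line attached to a vertex. -/
def Ln (K : Type u) [Field K] (v : Vx) : Submodule K (Fin 10 → K) where
  carrier := {z | (∀ i, i ∉ supp v → z i = 0) ∧ (∀ s, v = E 2 s → z (st s 0) = z (st s 1))}
  zero_mem' := ⟨fun _ _ => rfl, fun _ _ => rfl⟩
  add_mem' := by
    rintro a b ⟨h1, h2⟩ ⟨h3, h4⟩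
    exact ⟨fun i hi => by simp [h1 i hi, h3 i hi], fun s hs => by simp [h2 s hs, h4 s hs]⟩
  smul_mem' := by
    rintro c a ⟨h1, h2⟩
    exact ⟨fun i hi => by simp [h1 i hi], fun s hs => by simp [h2 s hs]⟩

theorem mem_Ln {v : Vx} {z : Fin 10 → K} : z ∈ Ln K v ↔
    (∀ i, i ∉ supp v → z i = 0) ∧ (∀ s, v = E 2 s → z (st s 0) = z (st s 1)) := Iff.rfl

/-- The union of the lines. -/
def Crv (K : Type u) [Field K] : Set (Fin 10 → K) := ⋃ v, (Ln K v : Set (Fin 10 → K))

theorem mem_Crv {z : Fin 10 → K} : z ∈ Crv K ↔ ∃ v, z ∈ Ln K v := by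
  simp [Crv]

theorem supp_cases (v : Vx) (i : Fin 10) (h : i ∈ supp v) : i = i0 v ∨ i = i1 v ∨
    ∃ s, v = E 2 s ∧ i = st s 1 ∧ i0 v = st s 0 := by
  revert v i; decide

theorem Ln_zero {v : Vx} {z : Fin 10 → K} (hz : z ∈ Ln K v) (h0 : z (i0 v) = 0)
    (h1 : z (i1 v) = 0) : z = 0 := by
  funext i
  by_cases hi : i ∈ supp v
  · rcases supp_cases v i hi with h | h | ⟨s, hs, h2, h3⟩
    · rw [h, h0]; rfl
    · rw [h, h1]; rfl
    · rw [h2, ← hz.2 s hs, ← h3, h0]; rfl
  · exact hz.1 i hi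

theorem Ln_det {v : Vx} {Λ : Submodule K (Fin 10 → K)} (hNL : ¬ Ln K v ≤ Λ)
    {p u : Fin 10 → K} (hp : p ∈ Λ) (hp' : p ∈ Ln K v) (hu : u ∈ Λ) (hu' : u ∈ Ln K v) :
    p (i0 v) * u (i1 v) = p (i1 v) * u (i0 v) := by
  by_contra hne
  apply hNL
  intro z hz
  set d := p (i0 v) * u (i1 v) - p (i1 v) * u (i0 v) with hd
  have hd0 : d ≠ 0 := sub_ne_zero.mpr hne
  set a := (z (i0 v) * u (i1 v) - z (i1 v) * u (i0 v)) / d with ha
  set b := (p (i0 v) * z (i1 v) - p (i1 v) * z (i0 v)) / d with hb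
  have hw : z - (a • p + b • u) = 0 := by
    apply Ln_zero (v := v)
    · exact Submodule.sub_mem _ hz (Submodule.add_mem _ (Submodule.smul_mem _ _ hp')
        (Submodule.smul_mem _ _ hu'))
    · simp only [Pi.sub_apply, Pi.add_apply, Pi.smul_apply, smul_eq_mul, ha, hb]
      field_simp
      rw [hd]; ring
    · simp only [Pi.sub_apply, Pi.add_apply, Pi.smul_apply, smul_eq_mul, ha, hb]
      field_simp
      rw [hd]; ring
  rw [sub_eq_zero.mp hw]
  exact Submodule.add_mem _ (Submodule.smul_mem _ _ hp) (Submodule.smul_mem _ _ hu)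

/-- Two vectors of `Λ` on one line are proportional. -/
theorem Ln_prop {v : Vx} {Λ : Submodule K (Fin 10 → K)} (hNL : ¬ Ln K v ≤ Λ)
    {p u : Fin 10 → K} (hp : p ∈ Λ) (hp' : p ∈ Ln K v) (hu : u ∈ Λ) (hu' : u ∈ Ln K v)
    (i j : Fin 10) : p j * u i = p i * u j := by
  have hdet := Ln_det hNL hp hp' hu hu'
  have key : ∀ k, k = i0 v ∨ k = i1 v → ∀ i, p k * u i = p i * u k := by
    intro k hk i
    have hw : p k • u - u k • p = 0 := by
      apply Ln_zero (v := v)
      · exact Submodule.sub_mem _ (Submodule.smul_mem _ _ hu') (Submodule.smul_mem _ _ hp')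
      · rcases hk with rfl | rfl
        · simp [mul_comm]
        · simp only [Pi.sub_apply, Pi.smul_apply, smul_eq_mul]
          linear_combination -hdet
      · rcases hk with rfl | rfl
        · simp only [Pi.sub_apply, Pi.smul_apply, smul_eq_mul]
          linear_combination hdet
        · simp [mul_comm]
    have := congrFun hw i
    simp only [Pi.sub_apply, Pi.smul_apply, smul_eq_mul, Pi.zero_apply] at this
    linear_combination this
  by_cases hp0 : p = 0
  · simp [hp0]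
  · have : p (i0 v) ≠ 0 ∨ p (i1 v) ≠ 0 := by
      by_contra hcon
      push Not at hcon
      exact hp0 (Ln_zero hp' hcon.1 hcon.2)
    rcases this with h | h
    · apply mul_left_cancel₀ h
      have e1 := key (i0 v) (Or.inl rfl) i
      have e2 := key (i0 v) (Or.inl rfl) j
      linear_combination p j * e1 - p i * e2
    · apply mul_left_cancel₀ h
      have e1 := key (i1 v) (Or.inr rfl) i
      have e2 := key (i1 v) (Or.inr rfl) j
      linear_combination p j * e1 - p i * e2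

/-- Choice of a coordinate on a line adapted to `Λ`. -/
theorem Ln_dich {v : Vx} {Λ : Submodule K (Fin 10 → K)} (hNL : ¬ Ln K v ≤ Λ) :
    ∃ (iv : Fin 10) (p : Fin 10 → K), (iv = i0 v ∨ iv = i1 v) ∧ p iv ≠ 0 ∧
      (∀ u ∈ Λ, u ∈ Ln K v → ∀ i, p iv * u i = p i * u iv) ∧
      ((p ∈ Λ ∧ p ∈ Ln K v) ∨ ∀ u ∈ Λ, u ∈ Ln K v → u = 0) := by
  by_cases h : ∀ u ∈ Λ, u ∈ Ln K v → u = 0
  · refine ⟨i0 v, Pi.single (i0 v) 1, Or.inl rfl, by simp, ?_, Or.inr h⟩
    intro u hu hu' i
    simp [h u hu hu']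
  · push Not at h
    obtain ⟨p, hp, hp', hp0⟩ := h
    have : p (i0 v) ≠ 0 ∨ p (i1 v) ≠ 0 := by
      by_contra hcon
      push Not at hcon
      exact hp0 (Ln_zero hp' hcon.1 hcon.2)
    rcases this with h | h
    · exact ⟨i0 v, p, Or.inl rfl, h, fun u hu hu' i => Ln_prop hNL hp hp' hu hu' i _,
        Or.inl ⟨hp, hp'⟩⟩
    · exact ⟨i1 v, p, Or.inr rfl, h, fun u hu hu' i => Ln_prop hNL hp hp' hu hu' i _,
        Or.inl ⟨hp, hp'⟩⟩

/-- node of path `x` at the star `s` -/
def nu (K : Type u) [Field K] : Fin 3 → Fin 2 → (Fin 10 → K)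
  | 0, s => Pi.single (st s 0) 1
  | 1, s => Pi.single (st s 1) 1
  | 2, s => Pi.single (st s 0) 1 + Pi.single (st s 1) 1

/-- linear form on the star `s` vanishing at `nu x s` -/
def perp : Fin 3 → Fin 2 → (Fin 10 → K) → K
  | 0, s, q => q (st s 1)
  | 1, s, q => q (st s 0)
  | 2, s, q => q (st s 0) - q (st s 1)

/-- nonadjacent coordinates -/
def nadj (i j : Fin 10) : Prop := ∀ v, i ∉ supp v ∨ j ∉ supp v

instance (i j : Fin 10) : Decidable (nadj i j) := by unfold nadj; infer_instance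

theorem mul_mem_of_nadj {i j : Fin 10} (h : nadj i j) :
    (X i * X j : MvPolynomial (Fin 10) K) ∈ vanishingIdeal K (Crv K) := by
  rw [mem_vanishingIdeal_iff]
  intro z hz
  obtain ⟨v, hv⟩ := mem_Crv.mp hz
  rcases h v with h | h
  · simp [hv.1 i h]
  · simp [hv.1 j h]

theorem aux_inn : ∀ (s : Fin 2) (v : Vx), v ≠ E 2 s → v ≠ M 2 → inn 2 s ∉ supp v := by decide

theorem sub_mul_mem (s : Fin 2) :
    ((X (st s 0) - X (st s 1)) * X (inn 2 s) : MvPolynomial (Fin 10) K) ∈
      vanishingIdeal K (Crv K) := by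
  rw [mem_vanishingIdeal_iff]
  intro z hz
  obtain ⟨v, hv⟩ := mem_Crv.mp hz
  simp only [map_mul, map_sub, aeval_X]
  by_cases h : v = E 2 s
  · rw [hv.2 s h]; ring
  · by_cases h' : v = M 2
    · have h1 : st s 0 ∉ supp v := by subst h'; revert s; decide
      have h2 : st s 1 ∉ supp v := by subst h'; revert s; decide
      rw [hv.1 _ h1, hv.1 _ h2]; ring
    · have h1 : inn 2 s ∉ supp v := aux_inn s v h h'
      rw [hv.1 _ h1]; ring

end Pool.Agent.H74.Secant
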