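import Mathlib
import Pool.Agent.H74.Secant.Model

set_option autoImplicit false

open MvPolynomial

namespace Pool.Agent.H74.Secant

universe u

open Vx

variable {K : Type u} [Field K]

/-- `q` is a vector witnessing that the star line `S s` is active. -/
def wS (_Λ : Submodule K (Fin 10 → K)) (s : Fin 2) (q : Fin 10 → K) : Prop :=
  q ∈ Ln K (S s) ∧ q ≠ 0

def wE (Λ : Submodule K (Fin 10 → K)) (x : Fin 3) (s : Fin 2) (q : Fin 10 → K) : Prop :=
  q (inn x s) ≠ 0 ∧ (q ∈ Ln K (E x s) ∨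
    (nu K x s ∈ Λ ∧ ∀ i, i ≠ st s 0 → i ≠ st s 1 → i ≠ inn x s → q i = 0))

def wM (Λ : Submodule K (Fin 10 → K)) (x : Fin 3) (q : Fin 10 → K) : Prop :=
  (q ∈ Ln K (M x) ∧ q (inn x 0) ≠ 0 ∧ q (inn x 1) ≠ 0) ∨
  ∃ s, (Pi.single (inn x s) 1 : Fin 10 → K) ∈ Λ ∧ q (inn x (1 - s)) ≠ 0 ∧ perp x s q = 0 ∧
    ∀ i, i ≠ st s 0 → i ≠ st s 1 → i ≠ inn x s → i ≠ inn x (1 - s) → q i = 0

def wit (Λ : Submodule K (Fin 10 → K)) : Vx → (Fin 10 → K) → Prop
  | S s, q => wS Λ s q
  | E x s, q => wE Λ x s q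
  | M x, q => wM Λ x q

/-- Active lines. -/
def act (Λ : Submodule K (Fin 10 → K)) (v : Vx) : Prop := ∃ q ∈ Λ, wit Λ v q

/-- Functionals orthogonal to `I(X) + I(Λ)`. -/
structure Fnl (Λ : Submodule K (Fin 10 → K)) (T : ℕ)
    (ω : MvPolynomial (Fin 10) K →ₗ[K] K) : Prop where
  hX : ∀ f ∈ vanishingIdeal K (Crv K), f.IsHomogeneous (T + 1) → ω f = 0
  hΛ : ∀ h : MvPolynomial (Fin 10) K, h.IsHomogeneous T → (fun i => ω (X i * h)) ∈ Λ

variable {Λ : Submodule K (Fin 10 → K)} {n : ℕ} {ω : MvPolynomial (Fin 10) K →ₗ[K] K}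

theorem hom_X_mul {g : MvPolynomial (Fin 10) K} {n : ℕ} (i : Fin 10) (hg : g.IsHomogeneous n) :
    (X i * g).IsHomogeneous (n + 1) := by
  have := (isHomogeneous_X K i).mul hg
  rwa [add_comm] at this

theorem Fnl.kill (hω : Fnl Λ (n + 2) ω) {i j : Fin 10} (h : nadj i j)
    (g : MvPolynomial (Fin 10) K) (hg : g.IsHomogeneous (n + 1)) : ω (X i * (X j * g)) = 0 := by
  apply hω.hX
  · rw [← mul_assoc]
    exact Ideal.mul_mem_right _ _ (mul_mem_of_nadj h)
  · exact hom_X_mul _ (hom_X_mul _ hg)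

theorem nadj_perp0 : ∀ s : Fin 2, nadj (st s 1) (inn 0 s) := by decide
theorem nadj_perp1 : ∀ s : Fin 2, nadj (st s 0) (inn 1 s) := by decide

theorem Fnl.perp (hω : Fnl Λ (n + 2) ω) (x : Fin 3) (s : Fin 2)
    (g : MvPolynomial (Fin 10) K) (hg : g.IsHomogeneous (n + 1)) :
    perp x s (fun i => ω (X i * (X (inn x s) * g))) = 0 := by
  match x with
  | 0 => exact hω.kill (nadj_perp0 s) g hg
  | 1 => exact hω.kill (nadj_perp1 s) g hg
  | 2 =>
    simp only [Secant.perp]
    rw [← map_sub]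
    apply hω.hX
    · have := Ideal.mul_mem_right g _ (sub_mul_mem (K := K) s)
      convert this using 1
      ring
    · exact (hom_X_mul _ (hom_X_mul _ hg)).sub (hom_X_mul _ (hom_X_mul _ hg))

theorem nadj_mid : ∀ (x : Fin 3) (i : Fin 10), i ∉ supp (M x) →
    nadj i (inn x 0) ∨ nadj i (inn x 1) := by decide

theorem nadj_mid' : ∀ (x : Fin 3) (s : Fin 2) (i : Fin 10), i ≠ st s 0 → i ≠ st s 1 →
    i ≠ inn x s → i ≠ inn x (1 - s) → nadj i (inn x s) := by decide

theorem notMem_mid : ∀ (x : Fin 3) (s : Fin 2) (i : Fin 10), i ≠ inn x s → i ≠ inn x (1 - s) →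
    i ∉ supp (M x) := by decide

theorem inn_mul (x : Fin 3) (s : Fin 2) : (X (inn x 0) * X (inn x 1) : MvPolynomial (Fin 10) K) =
    X (inn x (1 - s)) * X (inn x s) := by
  match s with
  | 0 => rw [mul_comm]; rfl
  | 1 => rfl

/-- middle step -/
theorem Fnl.mid (hω : Fnl Λ (n + 2) ω) (x : Fin 3)
    (iv : Fin 10) (p : Fin 10 → K) (hiv : iv = i0 (M x) ∨ iv = i1 (M x)) (hp : p iv ≠ 0)
    (hpu : ∀ u ∈ Λ, u ∈ Ln K (M x) → ∀ i, p iv * u i = p i * u iv)
    (hdich : (p ∈ Λ ∧ p ∈ Ln K (M x)) ∨ ∀ u ∈ Λ, u ∈ Ln K (M x) → u = 0)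
    (hgen : act Λ (M x) → ω (X (inn x 0) * X (inn x 1) * X iv ^ (n + 1)) = 0)
    (f : MvPolynomial (Fin 10) K) (hf : f.IsHomogeneous (n + 1)) :
    ω (X (inn x 0) * X (inn x 1) * f) = 0 := by
  set m : MvPolynomial (Fin 10) K := X (inn x 0) * X (inn x 1) with hm
  have hmh : m.IsHomogeneous 2 := (isHomogeneous_X K _).mul (isHomogeneous_X K _)
  set θ : MvPolynomial (Fin 10) K →ₗ[K] K := ω.comp (LinearMap.mulLeft K m) with hθ
  have hvec : ∀ h : MvPolynomial (Fin 10) K, h.IsHomogeneous n →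
      (fun i => θ (X i * h)) ∈ Λ ∧ (fun i => θ (X i * h)) ∈ Ln K (M x) := by
    intro h hh
    constructor
    · have := hω.hΛ (m * h) (by
        have := hmh.mul hh
        rwa [add_comm] at this)
      convert this using 2 with i
      simp only [hθ, LinearMap.comp_apply, LinearMap.mulLeft_apply]
      congr 1; ring
    · refine ⟨fun i hi => ?_, fun s hs => by cases hs⟩
      simp only [hθ, LinearMap.comp_apply, LinearMap.mulLeft_apply, hm]
      rcases nadj_mid x i hi with h1 | h1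
      · have := hω.kill h1 (X (inn x 1) * h) (hom_X_mul _ hh)
        rw [← this]; congr 1; ring
      · have := hω.kill h1 (X (inn x 0) * h) (hom_X_mul _ hh)
        rw [← this]; congr 1; ring
  have hθ0 : θ (X iv ^ (n + 1)) = 0 := by
    by_cases ha : act Λ (M x)
    · exact hgen ha
    · rcases hdich with ⟨hpΛ, hpL⟩ | hzero
      · have hns : ¬ (p (inn x 0) ≠ 0 ∧ p (inn x 1) ≠ 0) := fun h =>
          ha ⟨p, hpΛ, Or.inl ⟨hpL, h.1, h.2⟩⟩
        -- `p` is a node
        obtain ⟨s, hs1, hs2⟩ : ∃ s, iv = inn x s ∧ p (inn x (1 - s)) = 0 := by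
          rcases hiv with h | h
          · refine ⟨0, h, ?_⟩
            by_contra h1
            exact hns ⟨by rw [h] at hp; exact hp, h1⟩
          · refine ⟨1, h, ?_⟩
            by_contra h1
            exact hns ⟨h1, by rw [h] at hp; exact hp⟩
        have hnode : (Pi.single (inn x s) 1 : Fin 10 → K) ∈ Λ := by
          have : (Pi.single (inn x s) 1 : Fin 10 → K) = (p iv)⁻¹ • p := by
            funext i
            by_cases hi : i = inn x s
            · subst hi
              simp [← hs1, hp]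
            · rw [Pi.single_eq_of_ne hi, Pi.smul_apply, smul_eq_mul]
              have : p i = 0 := by
                by_cases h1 : i = inn x (1 - s)
                · rw [h1, hs2]
                · exact hpL.1 i (notMem_mid x s i hi h1)
              rw [this, mul_zero]
          rw [this]
          exact Λ.smul_mem _ hpΛ
        set u : Fin 10 → K := fun i => ω (X i * (X (inn x s) * X (inn x s) ^ (n + 1))) with hu
        have huΛ : u ∈ Λ := hω.hΛ _ (hom_X_mul _ (isHomogeneous_X_pow _ _))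
        have hu0 : u (inn x (1 - s)) = 0 := by
          by_contra hne
          exact ha ⟨u, huΛ, Or.inr ⟨s, hnode, hne, hω.perp x s _ (isHomogeneous_X_pow _ _),
            fun i h1 h2 h3 h4 => hω.kill (nadj_mid' x s i h1 h2 h3 h4) _
              (isHomogeneous_X_pow _ _)⟩⟩
        rw [← hu0]
        simp only [hθ, LinearMap.comp_apply, LinearMap.mulLeft_apply, hu, hm, hs1]
        rw [inn_mul x s]
        congr 1
        ring
      · have h1 := hvec (X iv ^ n) (isHomogeneous_X_pow _ _)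
        have h2 := hzero _ h1.1 h1.2
        have h3 := congrFun h2 iv
        simp only [Pi.zero_apply] at h3
        rw [pow_succ']
        exact h3
  have := ev_zero p iv hp n θ (fun h hh i => hpu _ (hvec h hh).1 (hvec h hh).2 i) hθ0 f hf
  simpa [hθ] using this

/-- the auxiliary factor of the bump polynomial -/
noncomputable def bump (K : Type u) [Field K] : Fin 3 → Fin 2 → MvPolynomial (Fin 10) K
  | 0, s => X (st s 0) - X (st s 1)
  | 1, s => X (st s 1) - X (st s 0)
  | 2, s => X (st s 1)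

theorem bump_hom (x : Fin 3) (s : Fin 2) : (bump K x s).IsHomogeneous 1 := by
  match x with
  | 0 => exact (isHomogeneous_X K _).sub (isHomogeneous_X K _)
  | 1 => exact (isHomogeneous_X K _).sub (isHomogeneous_X K _)
  | 2 => exact isHomogeneous_X K _

theorem bump_aux0 : ∀ (s : Fin 2) (i : Fin 10), i ≠ st s 0 → i ≠ st s 1 → i ≠ inn 0 s →
    i ≠ inn 2 s → nadj i (st s 0) := by decide
theorem bump_aux1 : ∀ (s : Fin 2) (i : Fin 10), i ≠ st s 0 → i ≠ st s 1 → i ≠ inn 1 s →
    i ≠ inn 2 s → nadj i (st s 1) := by decide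
theorem bump_aux2 : ∀ (s : Fin 2) (i : Fin 10), i ≠ st s 0 → i ≠ st s 1 →
    i ≠ inn 2 s → nadj i (st s 0) ∨ nadj i (st s 1) := by decide

theorem Fnl.bump_zero (hω : Fnl Λ (n + 2) ω) (x : Fin 3) (s : Fin 2) (i : Fin 10)
    (h1 : i ≠ st s 0) (h2 : i ≠ st s 1) (h3 : i ≠ inn x s) :
    ω (X i * (X (bs x s) ^ (n + 1) * bump K x s)) = 0 := by
  match x with
  | 0 =>
    by_cases h4 : i = inn 2 s
    · apply hω.hX
      · have := Ideal.mul_mem_right (X (st s 0) ^ (n + 1)) _ (sub_mul_mem (K := K) s)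
        convert this using 1
        simp only [bump, bs, h4]; ring
      · exact hom_X_mul _ ((isHomogeneous_X_pow _ _).mul (bump_hom 0 s))
    · have := hω.kill (bump_aux0 s i h1 h2 h3 h4) (X (st s 0) ^ n * bump K 0 s)
        ((isHomogeneous_X_pow _ _).mul (bump_hom 0 s))
      rw [← this]; simp only [bs]; congr 1; ring
  | 1 =>
    by_cases h4 : i = inn 2 s
    · apply hω.hX
      · have := Ideal.mul_mem_right (- X (st s 1) ^ (n + 1)) _ (sub_mul_mem (K := K) s)
        convert this using 1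
        simp only [bump, bs, h4]; ring
      · exact hom_X_mul _ ((isHomogeneous_X_pow _ _).mul (bump_hom 1 s))
    · have := hω.kill (bump_aux1 s i h1 h2 h3 h4) (X (st s 1) ^ n * bump K 1 s)
        ((isHomogeneous_X_pow _ _).mul (bump_hom 1 s))
      rw [← this]; simp only [bs]; congr 1; ring
  | 2 =>
    rcases bump_aux2 s i h1 h2 h3 with h | h
    · have := hω.kill h (X (st s 0) ^ n * bump K 2 s)
        ((isHomogeneous_X_pow _ _).mul (bump_hom 2 s))
      rw [← this]; simp only [bs]; congr 1; ring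
    · have := hω.kill h (X (st s 0) ^ (n + 1)) (isHomogeneous_X_pow _ _)
      rw [← this]; simp only [bs, bump]; congr 1; ring

theorem Fnl.bump_val (hω : Fnl Λ (n + 2) ω) (x : Fin 3) (s : Fin 2) :
    ω (X (inn x s) * (X (bs x s) ^ (n + 1) * bump K x s)) =
      ω (X (inn x s) * X (bs x s) ^ (n + 2)) := by
  rw [← sub_eq_zero, ← map_sub]
  match x with
  | 0 =>
    have := hω.kill (nadj_perp0 s) (- X (st s 0) ^ (n + 1)) (isHomogeneous_X_pow _ _).neg
    rw [← this]; simp only [bs, bump]; congr 1; ring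
  | 1 =>
    have := hω.kill (nadj_perp1 s) (- X (st s 1) ^ (n + 1)) (isHomogeneous_X_pow _ _).neg
    rw [← this]; simp only [bs, bump]; congr 1; ring
  | 2 =>
    apply hω.hX
    · have := Ideal.mul_mem_right (- X (st s 0) ^ (n + 1)) _ (sub_mul_mem (K := K) s)
      convert this using 1
      simp only [bump, bs]; ring
    · exact (hom_X_mul _ ((isHomogeneous_X_pow _ _).mul (bump_hom 2 s))).sub
        (hom_X_mul _ (isHomogeneous_X_pow _ _))

theorem end_aux : ∀ (x : Fin 3) (s : Fin 2) (i : Fin 10), i ∉ supp (E x s) →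
    i = inn x (1 - s) ∨ nadj i (inn x s) := by decide

theorem st_ne : ∀ s : Fin 2, st s 0 ≠ st s 1 := by decide
theorem st_ne' : ∀ s : Fin 2, st s 1 ≠ st s 0 := by decide
theorem inn_ne_st : ∀ (x : Fin 3) (s s' r : Fin 2), inn x s ≠ st s' r := by decide
theorem aux_ne0 : ∀ (s : Fin 2) (i : Fin 10), i ∉ supp (E 0 s) → i ≠ st s 0 := by decide
theorem aux_ne1 : ∀ (s : Fin 2) (i : Fin 10), i ∉ supp (E 1 s) → i ≠ st s 1 := by decide
theorem aux_ne2 : ∀ (s : Fin 2) (i : Fin 10), i ∉ supp (E 2 s) → i ≠ st s 0 ∧ i ≠ st s 1 := by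
  decide

theorem nu_mem_Ln (x : Fin 3) (s : Fin 2) : nu K x s ∈ Ln K (E x s) := by
  match x with
  | 0 =>
    refine ⟨fun i hi => Pi.single_eq_of_ne (aux_ne0 s i hi) _, fun s' hs' => ?_⟩
    cases hs'
  | 1 =>
    refine ⟨fun i hi => Pi.single_eq_of_ne (aux_ne1 s i hi) _, fun s' hs' => ?_⟩
    cases hs'
  | 2 =>
    refine ⟨fun i hi => ?_, fun s' hs' => ?_⟩
    · simp only [nu, Pi.add_apply]
      rw [Pi.single_eq_of_ne (aux_ne2 s i hi).1, Pi.single_eq_of_ne (aux_ne2 s i hi).2, add_zero]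
    · cases hs'
      simp only [nu, Pi.add_apply, Pi.single_eq_same]
      rw [Pi.single_eq_of_ne (st_ne s), Pi.single_eq_of_ne (st_ne' s)]
      ring

theorem nu_inn (x : Fin 3) (s : Fin 2) : nu K x s (inn x s) = 0 := by
  match x with
  | 0 => exact Pi.single_eq_of_ne (inn_ne_st _ _ _ _) _
  | 1 => exact Pi.single_eq_of_ne (inn_ne_st _ _ _ _) _
  | 2 =>
    simp only [nu, Pi.add_apply]
    rw [Pi.single_eq_of_ne (inn_ne_st _ _ _ _), Pi.single_eq_of_ne (inn_ne_st _ _ _ _), add_zero]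

theorem nu_bs (x : Fin 3) (s : Fin 2) : nu K x s (bs x s) = 1 := by
  match x with
  | 0 => simp [nu, bs]
  | 1 => simp [nu, bs]
  | 2 =>
    simp only [nu, bs, Pi.add_apply, Pi.single_eq_same]
    rw [Pi.single_eq_of_ne (st_ne s), add_zero]

theorem nu_mem {x : Fin 3} {s : Fin 2} {p : Fin 10 → K} (hp : p ∈ Λ) (hpL : p ∈ Ln K (E x s))
    (h0 : p (inn x s) = 0) (h1 : p (bs x s) ≠ 0) : nu K x s ∈ Λ := by
  have hw : p - p (bs x s) • nu K x s = 0 := by
    apply Ln_zero (v := E x s)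
    · exact Submodule.sub_mem _ hpL (Submodule.smul_mem _ _ (nu_mem_Ln x s))
    · simp only [i0, Pi.sub_apply, Pi.smul_apply, smul_eq_mul, nu_bs]
      ring
    · simp only [i1, Pi.sub_apply, Pi.smul_apply, smul_eq_mul, nu_inn, h0]
      ring
  have : nu K x s = (p (bs x s))⁻¹ • p := by
    rw [sub_eq_zero.mp hw]
    rw [Pi.smul_apply, nu_bs, smul_eq_mul, mul_one, smul_smul, inv_mul_cancel₀ h1, one_smul]
  rw [this]
  exact Λ.smul_mem _ hp

/-- end step -/
theorem Fnl.fin (hω : Fnl Λ (n + 2) ω) (x : Fin 3) (s : Fin 2)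
    (hmid : ∀ f : MvPolynomial (Fin 10) K, f.IsHomogeneous (n + 1) →
      ω (X (inn x 0) * X (inn x 1) * f) = 0)
    (iv : Fin 10) (p : Fin 10 → K) (hiv : iv = i0 (E x s) ∨ iv = i1 (E x s)) (hp : p iv ≠ 0)
    (hpu : ∀ u ∈ Λ, u ∈ Ln K (E x s) → ∀ i, p iv * u i = p i * u iv)
    (hdich : (p ∈ Λ ∧ p ∈ Ln K (E x s)) ∨ ∀ u ∈ Λ, u ∈ Ln K (E x s) → u = 0)
    (hgen : act Λ (E x s) → ω (X (inn x s) * X iv ^ (n + 2)) = 0)
    (f : MvPolynomial (Fin 10) K) (hf : f.IsHomogeneous (n + 2)) :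
    ω (X (inn x s) * f) = 0 := by
  set θ : MvPolynomial (Fin 10) K →ₗ[K] K := ω.comp (LinearMap.mulLeft K (X (inn x s))) with hθ
  have hvec : ∀ h : MvPolynomial (Fin 10) K, h.IsHomogeneous (n + 1) →
      (fun i => θ (X i * h)) ∈ Λ ∧ (fun i => θ (X i * h)) ∈ Ln K (E x s) := by
    intro h hh
    constructor
    · have := hω.hΛ (X (inn x s) * h) (hom_X_mul _ hh)
      convert this using 2 with i
      simp only [hθ, LinearMap.comp_apply, LinearMap.mulLeft_apply]
      congr 1; ring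
    · refine ⟨fun i hi => ?_, fun s' hs' => ?_⟩
      · simp only [hθ, LinearMap.comp_apply, LinearMap.mulLeft_apply]
        rcases end_aux x s i hi with h1 | h1
        · rw [h1, ← mul_assoc, mul_comm (X (inn x s)), ← inn_mul]
          exact hmid h hh
        · have := hω.kill h1 h hh
          rw [← this]; congr 1; ring
      · cases hs'
        simp only [hθ, LinearMap.comp_apply, LinearMap.mulLeft_apply]
        rw [← sub_eq_zero, ← map_sub]
        apply hω.hX
        · have := Ideal.mul_mem_right h _ (sub_mul_mem (K := K) s)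
          convert this using 1
          ring
        · exact (hom_X_mul _ (hom_X_mul _ hh)).sub (hom_X_mul _ (hom_X_mul _ hh))
  have hθ0 : θ (X iv ^ (n + 2)) = 0 := by
    by_cases ha : act Λ (E x s)
    · exact hgen ha
    · rcases hdich with ⟨hpΛ, hpL⟩ | hzero
      · have hns : p (inn x s) = 0 := by
          by_contra h
          exact ha ⟨p, hpΛ, h, Or.inl hpL⟩
        have hiv' : iv = bs x s := by
          rcases hiv with h | h
          · exact h
          · exact absurd hns (by rw [h] at hp; exact hp)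
        have hnode : nu K x s ∈ Λ := nu_mem hpΛ hpL hns (by rw [← hiv']; exact hp)
        set u : Fin 10 → K := fun i => ω (X i * (X (bs x s) ^ (n + 1) * bump K x s)) with hu
        have huΛ : u ∈ Λ := hω.hΛ _ ((isHomogeneous_X_pow _ _).mul (bump_hom x s))
        have hu0 : u (inn x s) = 0 := by
          by_contra hne
          exact ha ⟨u, huΛ, hne, Or.inr ⟨hnode, fun i h1 h2 h3 => hω.bump_zero x s i h1 h2 h3⟩⟩
        have := hω.bump_val x s
        simp only [hθ, LinearMap.comp_apply, LinearMap.mulLeft_apply, hiv']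
        rw [← this]
        exact hu0
      · have h1 := hvec (X iv ^ (n + 1)) (isHomogeneous_X_pow _ _)
        have h2 := hzero _ h1.1 h1.2
        have h3 := congrFun h2 iv
        simp only [Pi.zero_apply] at h3
        rw [pow_succ']
        exact h3
  have := ev_zero p iv hp (n + 1) θ (fun h hh i => hpu _ (hvec h hh).1 (hvec h hh).2 i) hθ0 f hf
  simpa [hθ] using this

theorem star_aux : ∀ (s r : Fin 2) (i : Fin 10), i ∉ supp (S s) →
    (∃ x s', i = inn x s') ∨ nadj i (st s r) := by decide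

theorem star_idx : ∀ (i : Fin 10), (∃ x s, i = inn x s) ∨ ∃ s r, i = st s r := by decide

/-- star step -/
theorem Fnl.star (hω : Fnl Λ (n + 2) ω) (s : Fin 2)
    (hfin : ∀ x s, ∀ f : MvPolynomial (Fin 10) K, f.IsHomogeneous (n + 2) →
      ω (X (inn x s) * f) = 0)
    (iv : Fin 10) (p : Fin 10 → K) (hiv : iv = i0 (S s) ∨ iv = i1 (S s)) (hp : p iv ≠ 0)
    (hpu : ∀ u ∈ Λ, u ∈ Ln K (S s) → ∀ i, p iv * u i = p i * u iv)
    (hdich : (p ∈ Λ ∧ p ∈ Ln K (S s)) ∨ ∀ u ∈ Λ, u ∈ Ln K (S s) → u = 0)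
    (hgen : act Λ (S s) → ω (X iv ^ (n + 3)) = 0) (r : Fin 2)
    (f : MvPolynomial (Fin 10) K) (hf : f.IsHomogeneous (n + 2)) :
    ω (X (st s r) * f) = 0 := by
  have hvec : ∀ (r : Fin 2) (h : MvPolynomial (Fin 10) K), h.IsHomogeneous (n + 1) →
      (fun i => ω (X i * (X (st s r) * h))) ∈ Λ ∧
      (fun i => ω (X i * (X (st s r) * h))) ∈ Ln K (S s) := by
    intro r h hh
    constructor
    · exact hω.hΛ _ (hom_X_mul _ hh)
    · refine ⟨fun i hi => ?_, fun s' hs' => by cases hs'⟩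
      rcases star_aux s r i hi with ⟨x, s', h1⟩ | h1
      · rw [h1]
        exact hfin x s' _ (hom_X_mul _ hh)
      · exact hω.kill h1 h hh
  obtain ⟨r₀, hr₀⟩ : ∃ r₀, iv = st s r₀ := by
    rcases hiv with h | h
    · exact ⟨0, h⟩
    · exact ⟨1, h⟩
  subst hr₀
  -- the functional `ω (X iv * _)` vanishes
  have hθ : ∀ f : MvPolynomial (Fin 10) K, f.IsHomogeneous (n + 2) →
      ω (X (st s r₀) * f) = 0 := by
    intro f hf
    set θ : MvPolynomial (Fin 10) K →ₗ[K] K := ω.comp (LinearMap.mulLeft K (X (st s r₀)))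
      with hθ
    have hcomm : ∀ (i : Fin 10) (h : MvPolynomial (Fin 10) K),
        θ (X i * h) = ω (X i * (X (st s r₀) * h)) := by
      intro i h
      simp only [hθ, LinearMap.comp_apply, LinearMap.mulLeft_apply]
      congr 1; ring
    have hθ0 : θ (X (st s r₀) ^ (n + 2)) = 0 := by
      by_cases ha : act Λ (S s)
      · have := hgen ha
        rw [pow_succ'] at this
        exact this
      · rcases hdich with ⟨hpΛ, hpL⟩ | hzero
        · exfalso
          apply ha
          refine ⟨p, hpΛ, hpL, ?_⟩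
          rintro rfl
          exact hp rfl
        · have h1 := hvec r₀ (X (st s r₀) ^ (n + 1)) (isHomogeneous_X_pow _ _)
          have h2 := hzero _ h1.1 h1.2
          have h3 := congrFun h2 (st s r₀)
          simp only [Pi.zero_apply] at h3
          rw [pow_succ', hcomm]
          exact h3
    have := ev_zero p (st s r₀) hp (n + 1) θ (fun h hh i => by
      rw [hcomm, hcomm]
      exact hpu _ (hvec r₀ h hh).1 (hvec r₀ h hh).2 i) hθ0 f hf
    simpa [hθ] using this
  have := zero_of_mul_zero (n + 1) (ω.comp (LinearMap.mulLeft K (X (st s r)))) (fun h hh i => by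
    have h1 := hvec r h hh
    have h2 := hpu _ h1.1 h1.2 i
    have h3 : ω (X (st s r₀) * (X (st s r) * h)) = 0 := hθ _ (hom_X_mul _ hh)
    simp only [h3, mul_zero] at h2
    have h4 := (mul_eq_zero.mp h2).resolve_left hp
    simp only [LinearMap.comp_apply, LinearMap.mulLeft_apply]
    rw [← h4]; congr 1; ring) f hf
  simpa using this

/-- A functional on homogeneous polynomials of degree `T + 1` that vanishes on given elements. -/
theorem exists_fnl (J : Ideal (MvPolynomial (Fin 10) K)) (t : ℕ) {A : Type} [Fintype A]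
    (G : A → homogeneousSubmodule (Fin 10) K t) (hcard : Fintype.card A < hilbertFn J t) :
    ∃ ω : MvPolynomial (Fin 10) K →ₗ[K] K, (∀ f ∈ J, f.IsHomogeneous t → ω f = 0) ∧
      (∀ a, ω (G a : MvPolynomial (Fin 10) K) = 0) ∧
      ∃ f : MvPolynomial (Fin 10) K, f.IsHomogeneous t ∧ ω f ≠ 0 := by
  rw [hilbertFn_eq] at hcard
  let ev : Module.Dual K (homogeneousSubmodule (Fin 10) K t ⧸ piece J t) →ₗ[K] (A → K) :=
    LinearMap.pi fun a => Module.Dual.eval K _ ((piece J t).mkQ (G a))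
  have hker : LinearMap.ker ev ≠ ⊥ := by
    apply LinearMap.ker_ne_bot_of_finrank_lt
    rw [Subspace.dual_finrank_eq, Module.finrank_fintype_fun_eq_card]
    exact hcard
  obtain ⟨φ, hφ, hφ0⟩ := Submodule.exists_mem_ne_zero_of_ne_bot hker
  rw [LinearMap.mem_ker] at hφ
  let π : MvPolynomial (Fin 10) K →ₗ[K] homogeneousSubmodule (Fin 10) K t :=
    LinearMap.codRestrict _ (homogeneousComponent t)
      (fun f => homogeneousComponent_mem t f)
  have hπ : ∀ f : homogeneousSubmodule (Fin 10) K t, π (f : MvPolynomial (Fin 10) K) = f := by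
    intro f
    apply Subtype.ext
    exact homogeneousComponent_eq_self f.2
  refine ⟨φ.comp ((piece J t).mkQ.comp π), ?_, ?_, ?_⟩
  · intro f hf hfh
    have h1 : π f = ⟨f, hfh⟩ := hπ ⟨f, hfh⟩
    have h2 : (piece J t).mkQ (π f) = 0 := by
      rw [h1, Submodule.mkQ_apply, Submodule.Quotient.mk_eq_zero, mem_piece]
      exact hf
    simp only [LinearMap.comp_apply, h2, map_zero]
  · intro a
    have := congrFun hφ a
    simp only [ev, LinearMap.pi_apply, Module.Dual.eval_apply, Pi.zero_apply] at this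
    simp only [LinearMap.comp_apply, hπ]
    exact this
  · by_contra hcon
    push Not at hcon
    apply hφ0
    refine LinearMap.ext fun q => ?_
    obtain ⟨f, rfl⟩ := (piece J t).mkQ_surjective q
    have := hcon f f.2
    simp only [LinearMap.comp_apply, hπ] at this
    simpa using this

theorem fnl_of (Λ : Submodule K (Fin 10 → K)) (T : ℕ) (ω : MvPolynomial (Fin 10) K →ₗ[K] K)
    (hωJ : ∀ f ∈ vanishingIdeal K (Crv K) ⊔ vanishingIdeal K (Λ : Set (Fin 10 → K)),
      f.IsHomogeneous (T + 1) → ω f = 0) : Fnl Λ T ω := by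
  refine ⟨fun f hf hfh => hωJ f (Ideal.mem_sup_left hf) hfh, fun h hh => ?_⟩
  by_contra hmem
  obtain ⟨w, h1, h2⟩ := Submodule.exists_dual_map_eq_bot_of_notMem hmem inferInstance
  apply h1
  have hw : ∀ z : Fin 10 → K, w z = ∑ i, z i * w (Pi.single i 1) := by
    intro z
    conv_lhs => rw [← Finset.univ_sum_single z]
    rw [map_sum]
    refine Finset.sum_congr rfl fun i _ => ?_
    have : (Pi.single i (z i) : Fin 10 → K) = z i • Pi.single i 1 := by
      rw [← Pi.single_smul, smul_eq_mul, mul_one]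
    rw [this, map_smul, smul_eq_mul]
  have h3 : (∑ i, C (w (Pi.single i 1)) * X i * h : MvPolynomial (Fin 10) K) ∈
      vanishingIdeal K (Crv K) ⊔ vanishingIdeal K (Λ : Set (Fin 10 → K)) := by
    rw [← Finset.sum_mul]
    apply Ideal.mul_mem_right
    apply Ideal.mem_sup_right
    rw [mem_vanishingIdeal_iff]
    intro z hz
    have h4 : w z = 0 := by
      have : w z ∈ Submodule.map w Λ := Submodule.mem_map_of_mem hz
      rw [h2, Submodule.mem_bot] at this
      exact this
    rw [hw z] at h4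
    rw [map_sum, ← h4]
    refine Finset.sum_congr rfl fun i _ => ?_
    simp [mul_comm]
  have h5 := hωJ _ h3 (by
    apply IsHomogeneous.sum
    intro i _
    rw [mul_assoc]
    exact (hom_X_mul i hh).C_mul _)
  rw [hw, ← h5, map_sum]
  refine Finset.sum_congr rfl fun i _ => ?_
  rw [mul_assoc, ← smul_eq_C_mul, map_smul, smul_eq_mul, mul_comm]

/-- generators -/
noncomputable def gen (K : Type u) [Field K] (iv : Vx → Fin 10) (n : ℕ) :
    Vx → homogeneousSubmodule (Fin 10) K (n + 3)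
  | S s => ⟨X (iv (S s)) ^ (n + 3), isHomogeneous_X_pow _ _⟩
  | E x s => ⟨X (inn x s) * X (iv (E x s)) ^ (n + 2), hom_X_mul _ (isHomogeneous_X_pow _ _)⟩
  | M x => ⟨X (inn x 0) * X (inn x 1) * X (iv (M x)) ^ (n + 1), by
      have := ((isHomogeneous_X K (inn x 0)).mul (isHomogeneous_X K (inn x 1))).mul
        (isHomogeneous_X_pow (R := K) (iv (M x)) (n + 1))
      have h2 : 1 + 1 + (n + 1) = n + 3 := by ring
      rw [h2] at this
      exact this⟩

/-- The dimension bound. -/
theorem hilb_le (hNL : ∀ v, ¬ Ln K v ≤ Λ) (n : ℕ) [DecidablePred (act Λ)] :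
    hilbertFn (vanishingIdeal K (Crv K) ⊔ vanishingIdeal K (Λ : Set (Fin 10 → K))) (n + 3) ≤
      (Finset.univ.filter (act Λ)).card := by
  by_contra hcon
  push Not at hcon
  choose iv p hiv hp hpu hdich using fun v => Ln_dich (v := v) (hNL v)
  obtain ⟨ω, hωJ, hωG', f₀, hf₀, hne⟩ := exists_fnl
    (vanishingIdeal K (Crv K) ⊔ vanishingIdeal K (Λ : Set (Fin 10 → K))) (n + 3)
    (fun a : {v // v ∈ Finset.univ.filter (act Λ)} => gen K iv n a.1)
    (by rw [Fintype.card_coe]; exact hcon)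
  have hωG : ∀ v, act Λ v → ω (gen K iv n v : MvPolynomial (Fin 10) K) = 0 := fun v hv =>
    hωG' ⟨v, by simpa using hv⟩
  have hω : Fnl Λ (n + 2) ω := fnl_of Λ (n + 2) ω hωJ
  have hmid : ∀ x, ∀ f : MvPolynomial (Fin 10) K, f.IsHomogeneous (n + 1) →
      ω (X (inn x 0) * X (inn x 1) * f) = 0 := fun x f hf =>
    hω.mid x (iv (M x)) (p (M x)) (hiv _) (hp _) (hpu _) (hdich _) (fun ha => hωG _ ha) f hf
  have hfin : ∀ x s, ∀ f : MvPolynomial (Fin 10) K, f.IsHomogeneous (n + 2) →
      ω (X (inn x s) * f) = 0 := fun x s f hf =>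
    hω.fin x s (hmid x) (iv (E x s)) (p (E x s)) (hiv _) (hp _) (hpu _) (hdich _)
      (fun ha => hωG _ ha) f hf
  have hstar : ∀ s r, ∀ f : MvPolynomial (Fin 10) K, f.IsHomogeneous (n + 2) →
      ω (X (st s r) * f) = 0 := fun s r f hf =>
    hω.star s hfin (iv (S s)) (p (S s)) (hiv _) (hp _) (hpu _) (hdich _)
      (fun ha => hωG _ ha) r f hf
  apply hne
  apply zero_of_mul_zero (n + 2) ω _ f₀ hf₀
  intro h hh i
  rcases star_idx i with ⟨x, s, rfl⟩ | ⟨s, r, rfl⟩
  · exact hfin x s h hh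
  · exact hstar s r h hh

end Pool.Agent.H74.Secant
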