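import Mathlib
import Pool.Agent.H74.Secant.Bound

set_option autoImplicit false

open MvPolynomial

namespace Pool.Agent.H74.Secant

universe u

open Vx

variable {K : Type u} [Field K]

theorem univ_Vx : (Finset.univ : Finset Vx) = {S 0, S 1, E 0 0, M 0, E 0 1, E 1 0, M 1, E 1 1,
    E 2 0, M 2, E 2 1} := by decide

theorem sum_Vx (f : Vx → K) : ∑ v, f v = f (S 0) + f (S 1) +
    ∑ x : Fin 3, (f (E x 0) + f (M x) + f (E x 1)) := by
  rw [univ_Vx]
  repeat rw [Finset.sum_insert (by decide)]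
  rw [Finset.sum_singleton, Fin.sum_univ_three]
  ring

theorem card_Vx (A : Finset Vx) : A.card = (A ∩ {S 0, S 1}).card +
    ∑ x : Fin 3, (A ∩ {E x 0, M x, E x 1}).card := by
  have h : ∀ x : Fin 3, (A ∩ {E x 0, M x, E x 1}).card =
      ∑ v ∈ ({E x 0, M x, E x 1} : Finset Vx), if v ∈ A then 1 else 0 := by
    intro x
    rw [Finset.inter_comm, ← Finset.filter_mem_eq_inter, Finset.card_filter]
  have h' : (A ∩ {S 0, S 1}).card =
      ∑ v ∈ ({S 0, S 1} : Finset Vx), if v ∈ A then 1 else 0 := by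
    rw [Finset.inter_comm, ← Finset.filter_mem_eq_inter, Finset.card_filter]
  have h'' : A.card = ∑ v ∈ (Finset.univ : Finset Vx), if v ∈ A then 1 else 0 := by
    rw [← Finset.card_filter]; simp
  rw [h'', h', Finset.sum_congr rfl fun x _ => h x, univ_Vx, Fin.sum_univ_three]
  repeat rw [Finset.sum_insert (by decide)]
  simp only [Finset.sum_singleton]
  ring

/-- Closed witnesses. -/
def CW (Λ : Submodule K (Fin 10 → K)) (A : Finset Vx) : Vx → (Fin 10 → K) → Prop
  | S s, q => q ∈ Ln K (S s) ∧ q ≠ 0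
  | E x s, q => q (inn x s) ≠ 0 ∧ (q ∈ Ln K (E x s) ∨
    (S s ∈ A ∧ nu K x s ∈ Λ ∧ ∀ i, i ≠ st s 0 → i ≠ st s 1 → i ≠ inn x s → q i = 0))
  | M x, q => (q ∈ Ln K (M x) ∧ q (inn x 0) ≠ 0 ∧ q (inn x 1) ≠ 0) ∨
  ∃ s, E x s ∈ A ∧ (Pi.single (inn x s) 1 : Fin 10 → K) ∈ Λ ∧ q (inn x (1 - s)) ≠ 0 ∧
    perp x s q = 0 ∧
    ∀ i, i ≠ st s 0 → i ≠ st s 1 → i ≠ inn x s → i ≠ inn x (1 - s) → q i = 0

structure Cfg (Λ : Submodule K (Fin 10 → K)) (A : Finset Vx) (q : Vx → Fin 10 → K)
    (c : Vx → K) : Prop where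
  nl : ∀ v, ¬ Ln K v ≤ Λ
  mem : ∀ v ∈ A, q v ∈ Λ
  cw : ∀ v ∈ A, CW Λ A v (q v)
  off : ∀ v, v ∉ A → c v = 0

/-- the combination -/
def zt (q : Vx → Fin 10 → K) (c : Vx → K) (i : Fin 10) : K := ∑ v, c v * q v i

def Dp (q : Vx → Fin 10 → K) (c : Vx → K) (x : Fin 3) (s r : Fin 2) : K :=
  c (E x s) * q (E x s) (st s r) + c (M x) * q (M x) (st s r)

section

variable {Λ : Submodule K (Fin 10 → K)} {A : Finset Vx} {q : Vx → Fin 10 → K} {c : Vx → K}

theorem a1 : ∀ (s : Fin 2) (x : Fin 3) (s' : Fin 2), inn x s' ∉ supp (S s) := by decide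
theorem a2 : ∀ (x' : Fin 3) (s' : Fin 2) (x : Fin 3) (s : Fin 2), (x', s') ≠ (x, s) →
    inn x s ∉ supp (E x' s') ∧ inn x s ≠ inn x' s' := by decide
theorem a3 : ∀ (x' x : Fin 3) (s : Fin 2), x' ≠ x → inn x s ∉ supp (M x') ∧
    (∀ s', inn x s ≠ inn x' s') := by decide
theorem a4 : ∀ (s s' r : Fin 2), s' ≠ s → st s r ∉ supp (S s') ∧ st s r ≠ st s' 0 ∧
    st s r ≠ st s' 1 := by decide
theorem a5 : ∀ (x : Fin 3) (s s' r : Fin 2), s' ≠ s → st s r ∉ supp (E x s') := by decide
theorem a6 : ∀ (x : Fin 3) (s r : Fin 2), st s r ∉ supp (M x) := by decide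
theorem st_ne_inn : ∀ (x : Fin 3) (s s' r : Fin 2), st s' r ≠ inn x s := by decide

theorem Cfg.S_zero (h : Cfg Λ A q c) (s : Fin 2) (i : Fin 10) (hi : i ∉ supp (S s)) :
    c (S s) * q (S s) i = 0 := by
  by_cases hA : S s ∈ A
  · rw [(h.cw _ hA).1.1 i hi, mul_zero]
  · rw [h.off _ hA, zero_mul]

theorem Cfg.E_zero (h : Cfg Λ A q c) (x : Fin 3) (s : Fin 2) (i : Fin 10)
    (hi : i ∉ supp (E x s)) (h0 : i ≠ st s 0) (h1 : i ≠ st s 1) (h2 : i ≠ inn x s) :
    c (E x s) * q (E x s) i = 0 := by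
  by_cases hA : E x s ∈ A
  · rcases (h.cw _ hA).2 with h' | h'
    · rw [h'.1 i hi, mul_zero]
    · rw [h'.2.2 i h0 h1 h2, mul_zero]
  · rw [h.off _ hA, zero_mul]

theorem Cfg.M_zero (h : Cfg Λ A q c) (x : Fin 3) (i : Fin 10)
    (hi : i ∉ supp (M x)) (h0 : ∀ s r, i ≠ st s r) (h2 : ∀ s, i ≠ inn x s) :
    c (M x) * q (M x) i = 0 := by
  by_cases hA : M x ∈ A
  · rcases h.cw _ hA with h' | ⟨s, _, _, _, _, h'⟩
    · rw [h'.1.1 i hi, mul_zero]
    · rw [h' i (h0 _ _) (h0 _ _) (h2 _) (h2 _), mul_zero]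
  · rw [h.off _ hA, zero_mul]

theorem inn_inj : ∀ (x : Fin 3) (s s' : Fin 2), s ≠ s' → inn x s ≠ inn x s' := by decide
theorem inn_ne : ∀ (x : Fin 3), inn x 0 ≠ inn x 1 := by decide
theorem inn_ne' : ∀ (x : Fin 3), inn x 1 ≠ inn x 0 := by decide
theorem inn_ne_sub : ∀ (x : Fin 3) (s : Fin 2), inn x s ≠ inn x (1 - s) := by decide
theorem inn_sub_ne : ∀ (x : Fin 3) (s : Fin 2), inn x (1 - s) ≠ inn x s := by decide

theorem Cfg.zt_inn (h : Cfg Λ A q c) (x : Fin 3) (s : Fin 2) :
    zt q c (inn x s) = c (E x s) * q (E x s) (inn x s) + c (M x) * q (M x) (inn x s) := by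
  unfold zt
  rw [sum_Vx, h.S_zero 0 _ (a1 _ _ _), h.S_zero 1 _ (a1 _ _ _)]
  rw [Finset.sum_eq_single x]
  · match s with
    | 0 =>
      rw [h.E_zero x 1 (inn x 0) (a2 _ _ _ _ (by simp)).1 (inn_ne_st _ _ _ _)
        (inn_ne_st _ _ _ _) (inn_ne x)]
      ring
    | 1 =>
      rw [h.E_zero x 0 (inn x 1) (a2 _ _ _ _ (by simp)).1 (inn_ne_st _ _ _ _)
        (inn_ne_st _ _ _ _) (inn_ne' x)]
      ring
  · intro x' _ hx'
    rw [h.E_zero x' 0 _ (a2 _ _ _ _ (by simp [hx'])).1 (inn_ne_st _ _ _ _) (inn_ne_st _ _ _ _)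
      (a2 _ _ _ _ (by simp [hx'])).2,
      h.E_zero x' 1 _ (a2 _ _ _ _ (by simp [hx'])).1 (inn_ne_st _ _ _ _) (inn_ne_st _ _ _ _)
      (a2 _ _ _ _ (by simp [hx'])).2,
      h.M_zero x' _ (a3 _ _ _ hx').1 (fun _ _ => inn_ne_st _ _ _ _) (a3 _ _ _ hx').2]
    ring
  · simp

theorem Cfg.zt_st (h : Cfg Λ A q c) (s r : Fin 2) :
    zt q c (st s r) = c (S s) * q (S s) (st s r) + ∑ x, Dp q c x s r := by
  unfold zt
  rw [sum_Vx]
  match s with
  | 0 =>
    rw [h.S_zero 1 _ (a4 _ _ _ (by simp)).1, add_zero]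
    congr 1
    refine Finset.sum_congr rfl fun x _ => ?_
    rw [h.E_zero x 1 _ (a5 _ _ _ _ (by simp)) (a4 _ _ _ (by simp)).2.1 (a4 _ _ _ (by simp)).2.2
      (st_ne_inn _ _ _ _), Dp]
    ring
  | 1 =>
    rw [h.S_zero 0 _ (a4 _ _ _ (by simp)).1, zero_add]
    congr 1
    refine Finset.sum_congr rfl fun x _ => ?_
    rw [h.E_zero x 0 _ (a5 _ _ _ _ (by simp)) (a4 _ _ _ (by simp)).2.1 (a4 _ _ _ (by simp)).2.2
      (st_ne_inn _ _ _ _), Dp]
    ring

theorem single_mem_Ln_E (x : Fin 3) (s : Fin 2) :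
    (Pi.single (inn x s) 1 : Fin 10 → K) ∈ Ln K (E x s) := by
  refine ⟨fun i hi => Pi.single_eq_of_ne ?_ _, fun s' hs' => ?_⟩
  · revert x s i; decide
  · cases hs'
    rw [Pi.single_eq_of_ne (st_ne_inn _ _ _ _), Pi.single_eq_of_ne (st_ne_inn _ _ _ _)]

theorem single_mem_Ln_M (x : Fin 3) (s : Fin 2) :
    (Pi.single (inn x s) 1 : Fin 10 → K) ∈ Ln K (M x) := by
  refine ⟨fun i hi => Pi.single_eq_of_ne ?_ _, fun s' hs' => by cases hs'⟩
  revert x s i; decide

/-- No vector of `Λ` on `M x` besides a node. -/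
theorem node_M (hNL : ∀ v, ¬ Ln K v ≤ Λ) {x : Fin 3} {s : Fin 2}
    (h : (Pi.single (inn x s) 1 : Fin 10 → K) ∈ Λ) {u : Fin 10 → K} (hu : u ∈ Λ)
    (hu' : u ∈ Ln K (M x)) : u (inn x (1 - s)) = 0 := by
  have := Ln_prop (hNL (M x)) h (single_mem_Ln_M x s) hu hu' (inn x (1 - s)) (inn x s)
  rw [Pi.single_eq_same, Pi.single_eq_of_ne (inn_sub_ne x s)] at this
  simpa using this

theorem node_E (hNL : ∀ v, ¬ Ln K v ≤ Λ) {x : Fin 3} {s : Fin 2}
    (h : (Pi.single (inn x s) 1 : Fin 10 → K) ∈ Λ) {u : Fin 10 → K} (hu : u ∈ Λ)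
    (hu' : u ∈ Ln K (E x s)) (i : Fin 10) (hi : i ≠ inn x s) : u i = 0 := by
  have := Ln_prop (hNL (E x s)) h (single_mem_Ln_E x s) hu hu' i (inn x s)
  rw [Pi.single_eq_same, Pi.single_eq_of_ne hi] at this
  simpa using this

theorem bs_ne_inn : ∀ (x : Fin 3) (s : Fin 2), bs x s ≠ inn x s := by decide

/-- If the node `inn x s` is in `Λ` then the witness of `E x s` is that node. -/
theorem Cfg.E_node (h : Cfg Λ A q c) {x : Fin 3} {s : Fin 2} (hA : E x s ∈ A)
    (hn : (Pi.single (inn x s) 1 : Fin 10 → K) ∈ Λ) (r : Fin 2) : q (E x s) (st s r) = 0 := by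
  rcases (h.cw _ hA).2 with h' | ⟨_, h', _⟩
  · exact node_E h.nl hn (h.mem _ hA) h' _ (st_ne_inn _ _ _ _)
  · exfalso
    have := node_E h.nl hn h' (nu_mem_Ln x s) (bs x s) (bs_ne_inn x s)
    rw [nu_bs] at this
    exact one_ne_zero this

theorem idx_cases : ∀ (x : Fin 3) (s : Fin 2) (i : Fin 10), i ∈ supp (E x s) →
    i = inn x s ∨ ∃ r, i = st s r := by decide

theorem single_of_E (h : Cfg Λ A q c) {x : Fin 3} {s : Fin 2} (hA : E x s ∈ A)
    (h0 : ∀ r, q (E x s) (st s r) = 0) : (Pi.single (inn x s) 1 : Fin 10 → K) ∈ Λ := by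
  have h1 := (h.cw _ hA).1
  have h2 : ∀ i, i ≠ inn x s → q (E x s) i = 0 := by
    intro i hi
    rcases (h.cw _ hA).2 with h' | ⟨_, _, h'⟩
    · by_cases hs : i ∈ supp (E x s)
      · rcases idx_cases x s i hs with h3 | ⟨r, rfl⟩
        · exact absurd h3 hi
        · exact h0 r
      · exact h'.1 i hs
    · by_cases h3 : i = st s 0
      · rw [h3]; exact h0 0
      · by_cases h4 : i = st s 1
        · rw [h4]; exact h0 1
        · exact h' i h3 h4 hi
  have : (Pi.single (inn x s) 1 : Fin 10 → K) = (q (E x s) (inn x s))⁻¹ • q (E x s) := by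
    funext i
    by_cases hi : i = inn x s
    · subst hi
      simp [h1]
    · rw [Pi.single_eq_of_ne hi, Pi.smul_apply, h2 i hi, smul_zero]
  rw [this]
  exact Λ.smul_mem _ (h.mem _ hA)

theorem two_cases (s s' : Fin 2) : s' = s ∨ s' = 1 - s := by revert s s'; decide
theorem sub_ne (s : Fin 2) : 1 - s ≠ s := by revert s; decide
theorem sub_sub_self' (s : Fin 2) : 1 - (1 - s) = s := by revert s; decide
theorem mem_supp_M : ∀ (x : Fin 3) (i : Fin 10), i ∈ supp (M x) → ∃ s, i = inn x s := by decide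

theorem inn_mem_supp : ∀ (x : Fin 3) (s : Fin 2), inn x s ∈ supp (M x) := by decide

/-- path lemma (a) -/
theorem Cfg.path_a (h : Cfg Λ A q c) (x : Fin 3) (hz : ∀ s, zt q c (inn x s) = 0) :
    ((∀ s, c (E x s) = 0) ∧ c (M x) = 0) ∨
    ((∀ s, E x s ∈ A) ∧ M x ∈ A ∧ ∀ s, ∃ r, Dp q c x s r ≠ 0) := by
  have hz' : ∀ s, c (E x s) * q (E x s) (inn x s) + c (M x) * q (M x) (inn x s) = 0 :=
    fun s => by rw [← h.zt_inn]; exact hz s
  by_cases hb : c (M x) = 0
  · left
    refine ⟨fun s => ?_, hb⟩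
    by_cases hA : E x s ∈ A
    · have := hz' s
      rw [hb, zero_mul, add_zero] at this
      exact (mul_eq_zero.mp this).resolve_right (h.cw _ hA).1
    · exact h.off _ hA
  · right
    have hM : M x ∈ A := by
      by_contra hcon
      exact hb (h.off _ hcon)
    have hEs : ∀ s, q (M x) (inn x s) ≠ 0 → c (E x s) ≠ 0 ∧ E x s ∈ A := by
      intro s hs
      have h1 : c (E x s) ≠ 0 := by
        intro h0
        have := hz' s
        rw [h0, zero_mul, zero_add] at this
        exact (mul_ne_zero hb hs) this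
      refine ⟨h1, ?_⟩
      by_contra hcon
      exact h1 (h.off _ hcon)
    rcases h.cw _ hM with ⟨hL, h0, h1⟩ | ⟨s₀, hE0, hn, hne, hperp, hsup⟩
    · have hall : ∀ s, q (M x) (inn x s) ≠ 0 := by
        intro s
        rcases two_cases 0 s with rfl | rfl
        · exact h0
        · exact h1
      refine ⟨fun s => (hEs s (hall s)).2, hM, fun s => ?_⟩
      by_contra hcon
      push Not at hcon
      have h2 : ∀ r, q (E x s) (st s r) = 0 := by
        intro r
        have := hcon r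
        rw [Dp, hL.1 _ (a6 _ _ _), mul_zero, add_zero] at this
        exact (mul_eq_zero.mp this).resolve_left (hEs s (hall s)).1
      have h3 := node_M h.nl (single_of_E h (hEs s (hall s)).2 h2) (h.mem _ hM) hL
      exact hall _ h3
    · have hE1 := hEs (1 - s₀) hne
      refine ⟨fun s => ?_, hM, fun s => ?_⟩
      · rcases two_cases s₀ s with rfl | rfl
        · exact hE0
        · exact hE1.2
      · rcases two_cases s₀ s with rfl | rfl
        · -- the side of the node
          by_contra hcon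
          push Not at hcon
          have h2 : ∀ r, q (M x) (st s r) = 0 := by
            intro r
            have := hcon r
            rw [Dp, h.E_node hE0 hn, mul_zero, zero_add] at this
            exact (mul_eq_zero.mp this).resolve_left hb
          have hL : q (M x) ∈ Ln K (M x) := by
            refine ⟨fun i hi => ?_, fun s' hs' => by cases hs'⟩
            by_cases h3 : i = st s 0
            · rw [h3]; exact h2 0
            · by_cases h4 : i = st s 1
              · rw [h4]; exact h2 1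
              · refine hsup i h3 h4 ?_ ?_
                · rintro rfl; exact hi (inn_mem_supp x s)
                · rintro rfl; exact hi (inn_mem_supp x (1 - s))
          exact hne (node_M h.nl hn (h.mem _ hM) hL)
        · -- the other side
          by_contra hcon
          push Not at hcon
          have h2 : ∀ r, q (E x (1 - s₀)) (st (1 - s₀) r) = 0 := by
            intro r
            have := hcon r
            rw [Dp, hsup (st (1 - s₀) r) (a4 _ _ _ (sub_ne s₀).symm).2.1
              (a4 _ _ _ (sub_ne s₀).symm).2.2 (st_ne_inn _ _ _ _) (st_ne_inn _ _ _ _),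
              mul_zero, add_zero] at this
            exact (mul_eq_zero.mp this).resolve_left hE1.1
          have h3 := node_M h.nl hn (single_of_E h hE1.2 h2) (single_mem_Ln_M x _)
          rw [Pi.single_eq_same] at h3
          exact one_ne_zero h3

/-- path lemma (b) -/
theorem Cfg.path_b (h : Cfg Λ A q c) (x : Fin 3) (hz : ∀ s, zt q c (inn x s) ≠ 0) :
    (M x ∈ A ∧ (∀ s, E x s ∉ A) ∧ ∀ s r, Dp q c x s r = 0) ∨
    (2 ≤ (A ∩ {E x 0, M x, E x 1}).card ∧
      ((∀ s, S s ∉ A) → (A ∩ {E x 0, M x, E x 1}).card = 2 →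
        Dp q c x 0 0 * Dp q c x 1 1 - Dp q c x 0 1 * Dp q c x 1 0 = 0)) := by
  have hz' : ∀ s, c (E x s) * q (E x s) (inn x s) + c (M x) * q (M x) (inn x s) ≠ 0 :=
    fun s => by rw [← h.zt_inn]; exact hz s
  by_cases hM : M x ∈ A
  · by_cases hE : ∀ s, E x s ∉ A
    · left
      refine ⟨hM, hE, fun s r => ?_⟩
      rcases h.cw _ hM with ⟨hL, h0, h1⟩ | ⟨s₀, hE0, _⟩
      · rw [Dp, h.off _ (hE s), hL.1 _ (a6 _ _ _)]; ring
      · exact absurd hE0 (hE _)
    · right
      push Not at hE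
      obtain ⟨s₀, hs₀⟩ := hE
      constructor
      · have : ({E x s₀, M x} : Finset Vx) ⊆ A ∩ {E x 0, M x, E x 1} := by
          intro v hv
          simp only [Finset.mem_insert, Finset.mem_singleton] at hv
          rw [Finset.mem_inter]
          rcases hv with rfl | rfl
          · refine ⟨hs₀, ?_⟩
            rcases two_cases 0 s₀ with rfl | rfl <;> simp
          · exact ⟨hM, by simp⟩
        calc 2 = ({E x s₀, M x} : Finset Vx).card := by
              rw [Finset.card_pair]; simp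
          _ ≤ _ := Finset.card_le_card this
      · intro hS hcard
        have hs1 : E x (1 - s₀) ∉ A := by
          intro hs1
          have : ({E x s₀, M x, E x (1 - s₀)} : Finset Vx) ⊆ A ∩ {E x 0, M x, E x 1} := by
            intro v hv
            simp only [Finset.mem_insert, Finset.mem_singleton] at hv
            rw [Finset.mem_inter]
            rcases hv with rfl | rfl | rfl
            · refine ⟨hs₀, ?_⟩
              rcases two_cases 0 s₀ with rfl | rfl <;> simp
            · exact ⟨hM, by simp⟩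
            · refine ⟨hs1, ?_⟩
              rcases two_cases 0 s₀ with rfl | rfl <;> simp
          have h3 := Finset.card_le_card this
          rw [hcard] at h3
          have h4 : ({E x s₀, M x, E x (1 - s₀)} : Finset Vx).card = 3 := by
            rw [Finset.card_eq_three]
            exact ⟨_, _, _, by simp, by
              intro h5
              injection h5 with _ h6
              exact sub_ne s₀ h6.symm, by simp, rfl⟩
          omega
        have hD : ∀ r, Dp q c x (1 - s₀) r = 0 := by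
          intro r
          rw [Dp, h.off _ hs1, zero_mul, zero_add]
          rcases h.cw _ hM with ⟨hL, h0, h1⟩ | ⟨s₂, hE2, hn, hne, hperp, hsup⟩
          · rw [hL.1 _ (a6 _ _ _), mul_zero]
          · have : s₂ = s₀ := by
              rcases two_cases s₀ s₂ with h3 | h3
              · exact h3
              · exact absurd (h3 ▸ hE2) hs1
            subst this
            rw [hsup _ (a4 _ _ _ (sub_ne s₂).symm).2.1
              (a4 _ _ _ (sub_ne s₂).symm).2.2 (st_ne_inn _ _ _ _) (st_ne_inn _ _ _ _), mul_zero]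
        rcases two_cases 0 s₀ with rfl | rfl
        · have h1 := hD 0
          have h2 := hD 1
          simp only [sub_zero] at h1 h2
          rw [h1, h2]; ring
        · have h1 := hD 0
          have h2 := hD 1
          simp only [sub_zero, sub_self] at h1 h2
          rw [h1, h2]; ring
  · right
    have hb : c (M x) = 0 := h.off _ hM
    have hE : ∀ s, E x s ∈ A := by
      intro s
      by_contra hcon
      apply hz' s
      rw [h.off _ hcon, hb]; ring
    constructor
    · have : ({E x 0, E x 1} : Finset Vx) ⊆ A ∩ {E x 0, M x, E x 1} := by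
        intro v hv
        simp only [Finset.mem_insert, Finset.mem_singleton] at hv
        rw [Finset.mem_inter]
        rcases hv with rfl | rfl
        · exact ⟨hE 0, by simp⟩
        · exact ⟨hE 1, by simp⟩
      calc 2 = ({E x 0, E x 1} : Finset Vx).card := by
            rw [Finset.card_pair]; simp
        _ ≤ _ := Finset.card_le_card this
    · intro hS _
      have hL : ∀ s, q (E x s) ∈ Ln K (E x s) := by
        intro s
        rcases (h.cw _ (hE s)).2 with h' | ⟨h', _⟩
        · exact h'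
        · exact absurd h' (hS s)
      simp only [Dp, hb, zero_mul, add_zero]
      match x, hL with
      | 0, hL =>
        rw [(hL 0).1 (st 0 1) (by decide), (hL 1).1 (st 1 1) (by decide)]; ring
      | 1, hL =>
        rw [(hL 0).1 (st 0 0) (by decide), (hL 1).1 (st 1 0) (by decide)]; ring
      | 2, hL =>
        rw [(hL 0).2 0 rfl, (hL 1).2 1 rfl]; ring

end

end Pool.Agent.H74.Secant
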