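import Mathlib
import Pool.Agent.H74.Secant.Comb

set_option autoImplicit false

open MvPolynomial

namespace Pool.Agent.H74.Secant

universe u

open Vx

variable {K : Type u} [Field K]
variable {Λ : Submodule K (Fin 10 → K)} {A : Finset Vx} {q : Vx → Fin 10 → K} {c : Vx → K}

/-- number of elements of `A` on the path `x` -/
def cnt (A : Finset Vx) (x : Fin 3) : ℕ := (A ∩ {E x 0, M x, E x 1}).card

theorem card_eq (A : Finset Vx) :
    A.card = (A ∩ {S 0, S 1}).card + (cnt A 0 + cnt A 1 + cnt A 2) := by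
  rw [card_Vx, Fin.sum_univ_three]; rfl

theorem cnt_pos (x : Fin 3) (h : M x ∈ A) : 1 ≤ cnt A x := by
  apply Finset.card_pos.mpr
  exact ⟨M x, by simp [h]⟩

theorem cnt_three (x : Fin 3) (hE : ∀ s, E x s ∈ A) (hM : M x ∈ A) : 3 ≤ cnt A x := by
  have : ({E x 0, M x, E x 1} : Finset Vx) ⊆ A ∩ {E x 0, M x, E x 1} := by
    intro v hv
    rw [Finset.mem_inter]
    refine ⟨?_, hv⟩
    simp only [Finset.mem_insert, Finset.mem_singleton] at hv
    rcases hv with rfl | rfl | rfl
    · exact hE 0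
    · exact hM
    · exact hE 1
  calc 3 = ({E x 0, M x, E x 1} : Finset Vx).card := by
        rw [Finset.card_eq_three.mpr]
        exact ⟨_, _, _, by simp, by simp, by simp, rfl⟩
    _ ≤ _ := Finset.card_le_card this

theorem others (x : Fin 3) (f : Fin 3 → ℕ) : f 0 + f 1 + f 2 = f x + (f (x + 1) + f (x + 2)) := by
  match x with
  | 0 => simp; ring
  | 1 => simp; ring
  | 2 => simp; ring

theorem othersK (x : Fin 3) (f : Fin 3 → K) : ∑ y, f y = f x + (f (x + 1) + f (x + 2)) := by
  rw [Fin.sum_univ_three]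
  match x with
  | 0 => simp; ring
  | 1 => simp; ring
  | 2 => simp; ring

theorem star_supp : ∀ (s : Fin 2) (i : Fin 10), i ∈ supp (S s) → ∃ r, i = st s r := by decide

theorem Cfg.indep (h : Cfg Λ A q c) (hA : A.card = 4) (hz : ∀ i, zt q c i = 0) :
    ∀ v, c v = 0 := by
  have hcard := card_eq A
  rw [hA] at hcard
  by_cases hex : ∃ x, (∀ s, E x s ∈ A) ∧ M x ∈ A ∧ ∀ s, ∃ r, Dp q c x s r ≠ 0
  · exfalso
    obtain ⟨x, hE, hM, hD⟩ := hex
    have h3 := cnt_three x hE hM
    rw [others x (cnt A)] at hcard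
    have hoth : ∀ y, cnt A y < 3 → ∀ s r, Dp q c y s r = 0 := by
      intro y hy s r
      rcases h.path_a y (fun s => hz _) with ⟨h1, h2⟩ | ⟨h1, h2, _⟩
      · rw [Dp, h1 s, h2]; ring
      · have := cnt_three y h1 h2
        omega
    have h1 := hoth (x + 1) (by omega)
    have h2 := hoth (x + 2) (by omega)
    have hS : ∀ s, S s ∈ A := by
      intro s
      obtain ⟨r, hr⟩ := hD s
      have := hz (st s r)
      rw [h.zt_st, othersK x, h1, h2] at this
      by_contra hcon
      rw [h.off _ hcon] at this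
      apply hr
      simpa using this
    have : ({S 0, S 1} : Finset Vx) ⊆ A ∩ {S 0, S 1} := by
      intro v hv
      rw [Finset.mem_inter]
      refine ⟨?_, hv⟩
      simp only [Finset.mem_insert, Finset.mem_singleton] at hv
      rcases hv with rfl | rfl
      · exact hS 0
      · exact hS 1
    have h4 := Finset.card_le_card this
    have h5 : ({S 0, S 1} : Finset Vx).card = 2 := by decide
    omega
  · push Not at hex
    have hp : ∀ x, (∀ s, c (E x s) = 0) ∧ c (M x) = 0 := by
      intro x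
      rcases h.path_a x (fun s => hz _) with h1 | ⟨h1, h2, h3⟩
      · exact h1
      · obtain ⟨s, hs⟩ := hex x h1 h2
        obtain ⟨r, hr⟩ := h3 s
        exact absurd (hs r) hr
    intro v
    match v with
    | E x s => exact (hp x).1 s
    | M x => exact (hp x).2
    | S s =>
      by_contra hne
      have hSA : S s ∈ A := by
        by_contra hcon
        exact hne (h.off _ hcon)
      obtain ⟨hL, hq⟩ := h.cw _ hSA
      apply hq
      funext i
      by_cases hi : i ∈ supp (S s)
      · obtain ⟨r, rfl⟩ := star_supp s i hi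
        have := hz (st s r)
        rw [h.zt_st] at this
        simp only [Dp, (hp _).1, (hp _).2, zero_mul, add_zero, Finset.sum_const_zero] at this
        exact (mul_eq_zero.mp this).resolve_left hne
      · exact hL.1 i hi

theorem Cfg.covering (h : Cfg Λ A q c) (hA : A.card = 4)
    (hz : ∀ x s, zt q c (inn x s) ≠ 0) :
    zt q c (st 0 0) * zt q c (st 1 1) - zt q c (st 0 1) * zt q c (st 1 0) = 0 := by
  have hcard := card_eq A
  rw [hA] at hcard
  have hpos : ∀ x, 1 ≤ cnt A x := by
    intro x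
    rcases h.path_b x (hz x) with ⟨h1, _, _⟩ | ⟨h1, _⟩
    · exact cnt_pos x h1
    · exact le_trans (by norm_num) h1
  by_cases hex : ∃ x, 2 ≤ cnt A x
  · obtain ⟨x, hx⟩ := hex
    rw [others x (cnt A)] at hcard
    have p1 := hpos (x + 1)
    have p2 := hpos (x + 2)
    have hS : ∀ s, S s ∉ A := by
      intro s hs
      have : 1 ≤ (A ∩ {S 0, S 1}).card := by
        apply Finset.card_pos.mpr
        refine ⟨S s, ?_⟩
        rw [Finset.mem_inter]
        refine ⟨hs, ?_⟩
        rcases two_cases 0 s with rfl | rfl <;> simp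
      omega
    have hoth : ∀ y, cnt A y < 2 → ∀ s r, Dp q c y s r = 0 := by
      intro y hy s r
      rcases h.path_b y (hz y) with ⟨_, _, h3⟩ | ⟨h1, _⟩
      · exact h3 s r
      · exact absurd h1 (not_le.mpr hy)
    have h1 := hoth (x + 1) (by omega)
    have h2 := hoth (x + 2) (by omega)
    have hzs : ∀ s r, zt q c (st s r) = Dp q c x s r := by
      intro s r
      rw [h.zt_st, othersK x, h1, h2, h.off _ (hS s)]
      ring
    rcases h.path_b x (hz x) with ⟨_, _, h3⟩ | ⟨_, h3⟩
    · simp only [hzs, h3]; ring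
    · rw [hzs, hzs, hzs, hzs]
      exact h3 hS (by
        change cnt A x = 2
        omega)
  · push Not at hex
    have hD : ∀ y s r, Dp q c y s r = 0 := by
      intro y s r
      rcases h.path_b y (hz y) with ⟨_, _, h3⟩ | ⟨h1, _⟩
      · exact h3 s r
      · exact absurd h1 (not_le.mpr (hex y))
    have hzs : ∀ s r, zt q c (st s r) = c (S s) * q (S s) (st s r) := by
      intro s r
      rw [h.zt_st]
      simp [hD]
    have hS : S 0 ∉ A ∨ S 1 ∉ A := by
      by_contra hcon
      push Not at hcon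
      have : ({S 0, S 1} : Finset Vx) ⊆ A ∩ {S 0, S 1} := by
        intro v hv
        rw [Finset.mem_inter]
        refine ⟨?_, hv⟩
        simp only [Finset.mem_insert, Finset.mem_singleton] at hv
        rcases hv with rfl | rfl
        · exact hcon.1
        · exact hcon.2
      have h4 := Finset.card_le_card this
      have h5 : ({S 0, S 1} : Finset Vx).card = 2 := by decide
      have := hpos 0
      have := hpos 1
      have := hpos 2
      omega
    rcases hS with hS | hS
    · rw [hzs 0, hzs 0, h.off _ hS]; ring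
    · rw [hzs 1, hzs 1, h.off _ hS]; ring

/-- Selection of a closed set of four active lines. -/
theorem select [DecidablePred (act Λ)] (h4 : 4 ≤ (Finset.univ.filter (act Λ)).card) :
    ∃ A : Finset Vx, A.card = 4 ∧ (∀ v ∈ A, act Λ v) ∧ (∀ s, act Λ (S s) → S s ∈ A) ∧
      (∀ x s, M x ∈ A → act Λ (E x s) → E x s ∈ A) := by
  set F := Finset.univ.filter (act Λ) with hF
  set S1 : Finset Vx := F ∩ {S 0, S 1} with hS1
  set S2 : Finset Vx := F ∩ {S 0, S 1, E 0 0, E 0 1, E 1 0, E 1 1, E 2 0, E 2 1} with hS2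
  have hS12 : S1 ⊆ S2 := by
    apply Finset.inter_subset_inter (le_refl _)
    decide
  have hS2F : S2 ⊆ F := Finset.inter_subset_left
  have hc1 : S1.card ≤ 2 := le_trans (Finset.card_le_card Finset.inter_subset_right) (by decide)
  have memF : ∀ v, v ∈ F ↔ act Λ v := fun v => by simp [hF]
  have memStar : ∀ s : Fin 2, S s ∈ ({S 0, S 1} : Finset Vx) := by decide
  have memEnd : ∀ (x : Fin 3) (s : Fin 2),
    E x s ∈ ({S 0, S 1, E 0 0, E 0 1, E 1 0, E 1 1, E 2 0, E 2 1} : Finset Vx) := by decide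
  have notMid : ∀ (x : Fin 3),
    M x ∉ ({S 0, S 1, E 0 0, E 0 1, E 1 0, E 1 1, E 2 0, E 2 1} : Finset Vx) := by decide
  by_cases hc2 : 4 ≤ S2.card
  · obtain ⟨A, hA1, hA2, hA3⟩ := Finset.exists_subsuperset_card_eq hS12 (by omega) hc2
    refine ⟨A, hA3, fun v hv => (memF v).mp (hS2F (hA2 hv)), fun s hs => hA1 ?_, ?_⟩
    · rw [hS1, Finset.mem_inter]
      exact ⟨(memF _).mpr hs, memStar s⟩
    · intro x s hx _
      have := hA2 hx
      rw [hS2, Finset.mem_inter] at this
      exact absurd this.2 (notMid x)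
  · obtain ⟨A, hA1, hA2, hA3⟩ := Finset.exists_subsuperset_card_eq hS2F (by omega) h4
    refine ⟨A, hA3, fun v hv => (memF v).mp (hA2 hv), fun s hs => hA1 (hS12 ?_), ?_⟩
    · rw [hS1, Finset.mem_inter]
      exact ⟨(memF _).mpr hs, memStar s⟩
    · intro x s _ hs
      apply hA1
      rw [hS2, Finset.mem_inter]
      exact ⟨(memF _).mpr hs, memEnd x s⟩

theorem nu_mem_S (x : Fin 3) (s : Fin 2) : nu K x s ∈ Ln K (S s) := by
  have key : ∀ (s : Fin 2) (i : Fin 10), i ∉ supp (S s) → i ≠ st s 0 ∧ i ≠ st s 1 := by decide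
  refine ⟨fun i hi => ?_, fun s' hs' => by cases hs'⟩
  obtain ⟨h0, h1⟩ := key s i hi
  match x with
  | 0 => exact Pi.single_eq_of_ne h0 _
  | 1 => exact Pi.single_eq_of_ne h1 _
  | 2 =>
    simp only [nu, Pi.add_apply]
    rw [Pi.single_eq_of_ne h0, Pi.single_eq_of_ne h1, add_zero]

theorem act_S_of_nu {x : Fin 3} {s : Fin 2} (h : nu K x s ∈ Λ) : act Λ (S s) := by
  refine ⟨nu K x s, h, nu_mem_S x s, ?_⟩
  intro h0
  have := nu_bs (K := K) x s
  rw [h0] at this
  simp at this

theorem act_E_of_single {x : Fin 3} {s : Fin 2} (h : (Pi.single (inn x s) 1 : Fin 10 → K) ∈ Λ) :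
    act Λ (E x s) :=
  ⟨_, h, by simp, Or.inl (single_mem_Ln_E x s)⟩

theorem act_card_le [DecidablePred (act Λ)] (hfin : Module.finrank K Λ = 4)
    (hNL : ∀ v, ¬ Ln K v ≤ Λ) (z : Fin 10 → K) (hzΛ : z ∈ Λ) (hz : ∀ x s, z (inn x s) ≠ 0)
    (hB : z (st 0 0) * z (st 1 1) - z (st 0 1) * z (st 1 0) ≠ 0) :
    (Finset.univ.filter (act Λ)).card ≤ 3 := by
  by_contra hcon
  obtain ⟨A, hA4, hAact, hAS, hAE⟩ := select (Λ := Λ) (by omega)
  have hw : ∀ v, ∃ q : Fin 10 → K, v ∈ A → q ∈ Λ ∧ wit Λ v q := by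
    intro v
    by_cases hv : v ∈ A
    · obtain ⟨q, h1, h2⟩ := hAact v hv
      exact ⟨q, fun _ => ⟨h1, h2⟩⟩
    · exact ⟨0, fun h => absurd h hv⟩
  choose q hq using hw
  have hcfg : ∀ c : Vx → K, (∀ v, v ∉ A → c v = 0) → Cfg Λ A q c := by
    intro c hc
    refine ⟨hNL, fun v hv => (hq v hv).1, fun v hv => ?_, hc⟩
    have hwit := (hq v hv).2
    match v, hv, hwit with
    | S s, hv, hwit => exact hwit
    | E x s, hv, hwit =>
      refine ⟨hwit.1, ?_⟩
      rcases hwit.2 with h1 | ⟨h1, h2⟩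
      · exact Or.inl h1
      · exact Or.inr ⟨hAS s (act_S_of_nu h1), h1, h2⟩
    | M x, hv, hwit =>
      rcases hwit with h1 | ⟨s, h1, h2⟩
      · exact Or.inl h1
      · exact Or.inr ⟨s, hAE x s hv (act_E_of_single h1), h1, h2⟩
  -- extension by zero
  let ext : ({v // v ∈ A} → K) → Vx → K := fun c v => if h : v ∈ A then c ⟨v, h⟩ else 0
  have hext : ∀ c v, v ∉ A → ext c v = 0 := fun c v hv => by simp [ext, hv]
  let Φ : ({v // v ∈ A} → K) →ₗ[K] Λ := Fintype.linearCombination K
    (fun v : {v // v ∈ A} => (⟨q v.1, (hq v.1 v.2).1⟩ : Λ))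
  have hΦ : ∀ c i, ((Φ c : Λ) : Fin 10 → K) i = zt q (ext c) i := by
    intro c i
    simp only [Φ, Fintype.linearCombination_apply, zt]
    rw [Submodule.coe_sum, Finset.sum_apply]
    rw [← Finset.sum_subset (Finset.subset_univ A) (fun v _ hv => by simp [hext c v hv])]
    rw [← Finset.sum_attach A, ← Finset.univ_eq_attach]
    refine Finset.sum_congr rfl fun v _ => ?_
    simp [ext, v.2]
  have hinj : Function.Injective Φ := by
    rw [← LinearMap.ker_eq_bot, LinearMap.ker_eq_bot']
    intro c hc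
    have h1 := (hcfg (ext c) (hext c)).indep hA4 (fun i => by rw [← hΦ, hc]; rfl)
    funext v
    have := h1 v.1
    simpa [ext, v.2] using this
  have hsurj : Function.Surjective Φ := by
    rw [← LinearMap.injective_iff_surjective_of_finrank_eq_finrank]
    · exact hinj
    · rw [hfin, Module.finrank_fintype_fun_eq_card, Fintype.card_coe, hA4]
  obtain ⟨c, hc⟩ := hsurj ⟨z, hzΛ⟩
  have hzc : ∀ i, zt q (ext c) i = z i := fun i => by rw [← hΦ, hc]
  apply hB
  have := (hcfg (ext c) (hext c)).covering hA4 (fun x s => by rw [hzc]; exact hz x s)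
  simpa [hzc] using this

end Pool.Agent.H74.Secant
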