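import Mathlib
import Pool.Agent.H74.Secant.Cover

set_option autoImplicit false

open MvPolynomial

namespace Pool.Agent.H74.Secant

universe u

open Vx

variable {K : Type u} [Field K]

theorem i0_ne_i1 : ∀ v, i0 v ≠ i1 v := by decide
theorem i0_mem : ∀ v, i0 v ∈ supp v := by decide
theorem i1_mem : ∀ v, i1 v ∈ supp v := by decide

/-- first node vector of a line -/
def n0 (K : Type u) [Field K] : Vx → Fin 10 → K
  | S s => Pi.single (st s 0) 1
  | E x s => nu K x s
  | M x => Pi.single (inn x 0) 1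

def n1 (K : Type u) [Field K] : Vx → Fin 10 → K
  | S s => Pi.single (st s 1) 1
  | E x s => Pi.single (inn x s) 1
  | M x => Pi.single (inn x 1) 1

theorem n0_mem (v : Vx) : n0 K v ∈ Ln K v := by
  match v with
  | S s => exact nu_mem_S 0 s
  | E x s => exact nu_mem_Ln x s
  | M x => exact single_mem_Ln_M x 0

theorem n1_mem (v : Vx) : n1 K v ∈ Ln K v := by
  match v with
  | S s => exact nu_mem_S 1 s
  | E x s => exact single_mem_Ln_E x s
  | M x => exact single_mem_Ln_M x 1

theorem n0_i0 (v : Vx) : n0 K v (i0 v) = 1 := by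
  match v with
  | S s => simp [n0, i0]
  | E x s => exact nu_bs x s
  | M x => simp [n0, i0]

theorem n0_i1 (v : Vx) : n0 K v (i1 v) = 0 := by
  match v with
  | S s => exact Pi.single_eq_of_ne (st_ne' s) _
  | E x s => exact nu_inn x s
  | M x => exact Pi.single_eq_of_ne (inn_ne' x) _

theorem n1_i0 (v : Vx) : n1 K v (i0 v) = 0 := by
  match v with
  | S s => exact Pi.single_eq_of_ne (st_ne s) _
  | E x s => exact Pi.single_eq_of_ne (bs_ne_inn x s) _
  | M x => exact Pi.single_eq_of_ne (inn_ne x) _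

theorem n1_i1 (v : Vx) : n1 K v (i1 v) = 1 := by
  match v with
  | S s => simp [n1, i1]
  | E x s => simp [n1, i1]
  | M x => simp [n1, i1]

theorem no_line [Infinite K] (Λ : Submodule K (Fin 10 → K)) (ℓ : ℕ)
    (h : MeetsInLength (Crv K) Λ ℓ) (v : Vx) : ¬ Ln K v ≤ Λ := by
  intro hle
  obtain ⟨t₀, ht₀⟩ := Filter.eventually_atTop.mp h
  have h1 := ht₀ (max t₀ ℓ) (le_max_left _ _)
  have h2 := line_bound (vanishingIdeal K (Crv K) ⊔ vanishingIdeal K (Λ : Set (Fin 10 → K)))
    (n0 K v) (n1 K v) (fun f hf s => by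
      have hmem : n0 K v + s • n1 K v ∈ Ln K v :=
        Submodule.add_mem _ (n0_mem v) (Submodule.smul_mem _ _ (n1_mem v))
      have h3 : vanishingIdeal K (Crv K) ⊔ vanishingIdeal K (Λ : Set (Fin 10 → K)) ≤
          vanishingIdeal K {n0 K v + s • n1 K v} := by
        apply sup_le
        · apply vanishingIdeal_anti_mono
          rintro _ rfl
          exact mem_Crv.mpr ⟨v, hmem⟩
        · apply vanishingIdeal_anti_mono
          rintro _ rfl
          exact hle hmem
      exact h3 hf _ rfl) (i0 v) (i1 v) (n0_i0 v) (n0_i1 v) (n1_i0 v) (n1_i1 v) (max t₀ ℓ)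
  rw [h1] at h2
  have := le_max_right t₀ ℓ
  omega

/-- The form that is in the ideal of the secant variety. -/
noncomputable def FF (K : Type u) [Field K] : MvPolynomial (Fin 10) K :=
  (∏ i ∈ ({4, 5, 6, 7, 8, 9} : Finset (Fin 10)), X i) *
    (X (st 0 0) * X (st 1 1) - X (st 0 1) * X (st 1 0))

theorem inn_mem : ∀ (x : Fin 3) (s : Fin 2),
    inn x s ∈ ({4, 5, 6, 7, 8, 9} : Finset (Fin 10)) := by decide

theorem FF_vanish [Infinite K] : FF K ∈ vanishingIdeal K (secantUnion 3 (Crv K)) := by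
  classical
  rw [mem_vanishingIdeal_iff]
  rintro z ⟨Λ, hfin, ⟨ℓ, hℓ, hmeet⟩, hz⟩
  by_contra hne
  have hNL := no_line Λ ℓ hmeet
  simp only [FF, map_mul, map_sub, aeval_X, map_prod] at hne
  have h1 := left_ne_zero_of_mul hne
  have h2 := right_ne_zero_of_mul hne
  rw [Finset.prod_ne_zero_iff] at h1
  have h3 := act_card_le hfin hNL z hz (fun x s => h1 _ (inn_mem x s)) h2
  obtain ⟨t₀, ht₀⟩ := Filter.eventually_atTop.mp hmeet
  have h4 := hilb_le hNL t₀
  rw [ht₀ (t₀ + 3) (by omega)] at h4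
  omega

/-- the four lines of the component number `x` -/
def four (x : Fin 3) : Fin 4 → Vx
  | 0 => E x 0
  | 1 => E x 1
  | 2 => M (x + 1)
  | 3 => M (x + 2)

theorem four_disj : ∀ (x : Fin 3) (i : Fin 10) (j j' : Fin 4), j ≠ j' →
    i ∉ supp (four x j) ∨ i ∉ supp (four x j') := by decide

theorem four_two : ∀ (x : Fin 3) (j : Fin 4) (s : Fin 2), four x j = E 2 s → x = 2 := by decide
theorem supp_E2 : ∀ (s : Fin 2), st s 0 ∈ supp (E 2 s) ∧ st s 1 ∈ supp (E 2 s) := by decide

/-- linear subspace number `x` -/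
def Vsp (K : Type u) [Field K] (x : Fin 3) : Set (Fin 10 → K) :=
  {z | ∀ s, perp x s z = 0}

noncomputable def pts (x : Fin 3) (z : Fin 10 → K) (j : Fin 4) : Fin 10 → K :=
  fun i => if i ∈ supp (four x j) then z i else 0

theorem pts_mem (x : Fin 3) (z : Fin 10 → K) (hz : z ∈ Vsp K x) (j : Fin 4) :
    pts x z j ∈ Ln K (four x j) := by
  refine ⟨fun i hi => by simp [pts, hi], fun s hs => ?_⟩
  have hx : x = 2 := four_two x j s hs
  subst hx
  simp only [pts, hs, (supp_E2 s).1, (supp_E2 s).2, if_true]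
  exact sub_eq_zero.mp (hz s)

theorem four_cover : ∀ (x : Fin 3) (i : Fin 10), (∃ j, i ∈ supp (four x j)) ∨
    ∃ s, (x = 0 ∧ i = st s 1) ∨ (x = 1 ∧ i = st s 0) := by decide

theorem pts_sum (x : Fin 3) (z : Fin 10 → K) (hz : z ∈ Vsp K x) : ∑ j, pts x z j = z := by
  funext i
  rw [Finset.sum_apply]
  by_cases h : ∃ j, i ∈ supp (four x j)
  · obtain ⟨j, hj⟩ := h
    rw [Finset.sum_eq_single j]
    · simp [pts, hj]
    · intro j' _ hne
      have := (four_disj x i j j' hne.symm).resolve_left (fun h => h hj)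
      simp [pts, this]
    · simp
  · have h0 : ∀ j, pts x z j i = 0 := by
      intro j
      have : i ∉ supp (four x j) := fun h' => h ⟨j, h'⟩
      simp [pts, this]
    rw [Finset.sum_eq_zero (fun j _ => h0 j)]
    rcases (four_cover x i).resolve_left h with ⟨s, ⟨rfl, rfl⟩ | ⟨rfl, rfl⟩⟩
    · exact (hz s).symm
    · exact (hz s).symm

theorem four_cross : ∀ (x : Fin 3) (j j' : Fin 4), j ≠ j' → ∃ i i', i ∈ supp (four x j) ∧
    i' ∈ supp (four x j') ∧ nadj i i' := by decide

theorem mem_secant (x : Fin 3) (z : Fin 10 → K) (hz : z ∈ Vsp K x)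
    (hgen : ∀ j, ∀ i ∈ supp (four x j), z i ≠ 0) : z ∈ secantUnion 3 (Crv K) := by
  have hpt : ∀ j i, i ∈ supp (four x j) → pts x z j i ≠ 0 := by
    intro j i hi
    simp only [pts, hi, if_true]
    exact hgen j i hi
  have hpt0 : ∀ j i, i ∉ supp (four x j) → pts x z j i = 0 := by
    intro j i hi
    simp [pts, hi]
  have hdisj : ∀ i, ∀ j j', j ≠ j' → pts x z j i = 0 ∨ pts x z j' i = 0 := by
    intro i j j' hne
    rcases four_disj x i j j' hne with h | h
    · exact Or.inl (hpt0 _ _ h)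
    · exact Or.inr (hpt0 _ _ h)
  have hli : LinearIndependent K (pts x z) := by
    rw [Fintype.linearIndependent_iff]
    intro g hg j
    have := congrFun hg (i0 (four x j))
    rw [Finset.sum_apply, Finset.sum_eq_single j] at this
    · simp only [Pi.smul_apply, smul_eq_mul, Pi.zero_apply] at this
      exact (mul_eq_zero.mp this).resolve_right (hpt j _ (i0_mem _))
    · intro j' _ hne
      have := (four_disj x (i0 (four x j)) j j' hne.symm).resolve_left
        (fun h => h (i0_mem _))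
      simp [hpt0 _ _ this]
    · simp
  refine ⟨Submodule.span K (Set.range (pts x z)), ?_, ⟨4, le_refl _, ?_⟩, ?_⟩
  · rw [finrank_span_eq_card hli]; rfl
  · rw [MeetsInLength, Filter.eventually_atTop]
    refine ⟨2, fun t ht => ?_⟩
    obtain ⟨n, rfl⟩ : ∃ n, t = n + 2 := ⟨t - 2, by omega⟩
    have := points_hilb (pts x z) (vanishingIdeal K (Crv K) ⊔ vanishingIdeal K
      ((Submodule.span K (Set.range (pts x z)) : Submodule K (Fin 10 → K)) : Set (Fin 10 → K)))
      hdisj ?_ ?_ (fun j => ⟨_, hpt j _ (i0_mem _)⟩) ?_ n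
    · rw [this]; rfl
    · intro w hw
      apply Ideal.mem_sup_right
      rw [mem_vanishingIdeal_iff]
      intro y hy
      have h1 : ∀ y ∈ Submodule.span K (Set.range (pts x z)), ∑ i, w i * y i = 0 := by
        intro y hy
        induction hy using Submodule.span_induction with
        | mem y hy =>
          obtain ⟨j, rfl⟩ := hy
          exact hw j
        | zero => simp
        | add a b _ _ ha hb =>
          simp only [Pi.add_apply, mul_add, Finset.sum_add_distrib, ha, hb, add_zero]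
        | smul c a _ ha =>
          simp only [Pi.smul_apply, smul_eq_mul]
          calc ∑ i, w i * (c * a i) = c * ∑ i, w i * a i := by
                rw [Finset.mul_sum]
                exact Finset.sum_congr rfl fun i _ => by ring
            _ = 0 := by rw [ha, mul_zero]
      rw [map_sum, ← h1 y hy]
      refine Finset.sum_congr rfl fun i _ => ?_
      simp
    · intro j j' hne
      obtain ⟨i, i', hi, hi', hn⟩ := four_cross x j j' hne
      exact ⟨i, i', hpt _ _ hi, hpt _ _ hi', Ideal.mem_sup_left (mul_mem_of_nadj hn)⟩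
    · intro f hf j
      have h3 : vanishingIdeal K (Crv K) ⊔ vanishingIdeal K
          ((Submodule.span K (Set.range (pts x z)) : Submodule K (Fin 10 → K)) :
            Set (Fin 10 → K)) ≤ vanishingIdeal K {pts x z j} := by
        apply sup_le
        · apply vanishingIdeal_anti_mono
          rintro _ rfl
          exact mem_Crv.mpr ⟨_, pts_mem x z hz j⟩
        · apply vanishingIdeal_anti_mono
          rintro _ rfl
          exact Submodule.subset_span ⟨j, rfl⟩
      exact h3 hf _ rfl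
  · have h : ∑ j, pts x z j ∈ Submodule.span K (Set.range (pts x z)) :=
      Submodule.sum_mem _ fun j _ => Submodule.subset_span (Set.mem_range_self j)
    rwa [pts_sum x z hz] at h

/-- substitution restricting to the subspace number `x` -/
noncomputable def sbs (K : Type u) [Field K] : Fin 3 → Fin 10 → MvPolynomial (Fin 10) K
  | 0, i => if i = 1 ∨ i = 3 then 0 else X i
  | 1, i => if i = 0 ∨ i = 2 then 0 else X i
  | 2, i => if i = 1 then X 0 else if i = 3 then X 2 else X i

noncomputable def prj (x : Fin 3) (z : Fin 10 → K) (i : Fin 10) : K := aeval z (sbs K x i)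

theorem prj_mem (x : Fin 3) (z : Fin 10 → K) : prj x z ∈ Vsp K x := by
  intro s
  match x with
  | 0 =>
    rcases two_cases 0 s with rfl | rfl
    · simp [perp, prj, sbs, st]
    · simp [perp, prj, sbs, st]
  | 1 =>
    rcases two_cases 0 s with rfl | rfl
    · simp [perp, prj, sbs, st]
    · simp [perp, prj, sbs, st]
  | 2 =>
    rcases two_cases 0 s with rfl | rfl
    · simp [perp, prj, sbs, st]
    · simp [perp, prj, sbs, st]

theorem four_aux0 : ∀ (j : Fin 4) (i : Fin 10), i ∈ supp (four 0 j) → ¬ (i = 1 ∨ i = 3) := by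
  decide
theorem four_aux1 : ∀ (j : Fin 4) (i : Fin 10), i ∈ supp (four 1 j) → ¬ (i = 0 ∨ i = 2) := by
  decide

theorem prj_gen (x : Fin 3) (z : Fin 10 → K) (hz : ∀ i, z i ≠ 0) :
    ∀ j, ∀ i ∈ supp (four x j), prj x z i ≠ 0 := by
  intro j i hi
  match x, hi with
  | 0, hi => simp [prj, sbs, four_aux0 j i hi, hz]
  | 1, hi => simp [prj, sbs, four_aux1 j i hi, hz]
  | 2, hi =>
    simp only [prj, sbs]
    split_ifs <;> simp [hz]

theorem sbs_zero [Infinite K] (x : Fin 3) (f : MvPolynomial (Fin 10) K)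
    (hf : f ∈ vanishingIdeal K (secantUnion 3 (Crv K))) : aeval (sbs K x) f = 0 := by
  have h1 : aeval (sbs K x) f * ∏ i, X i = 0 := by
    apply MvPolynomial.funext
    intro z
    rw [map_mul, map_zero, map_prod]
    by_cases hz : ∀ i, z i ≠ 0
    · have h2 := hf _ (mem_secant x (prj x z) (prj_mem x z) (prj_gen x z hz))
      have h3 : eval z (aeval (sbs K x) f) = aeval (prj x z) f := by
        rw [← coe_aeval_eq_eval]
        change (aeval z) ((aeval (sbs K x)) f) = _
        rw [← AlgHom.comp_apply, comp_aeval]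
        rfl
      rw [h3, h2, zero_mul]
    · push Not at hz
      obtain ⟨i, hi⟩ := hz
      rw [Finset.prod_eq_zero (Finset.mem_univ i), mul_zero]
      simp [hi]
  refine (mul_eq_zero.mp h1).resolve_right ?_
  exact Finset.prod_ne_zero_iff.mpr fun i _ => X_ne_zero i

/-- A linear form is a combination of the variables. -/
theorem linear_form {g : MvPolynomial (Fin 10) K} (hg : g.IsHomogeneous 1) :
    ∃ a : Fin 10 → K, g = ∑ i, C (a i) * X i := by
  have : g ∈ homogeneousSubmodule (Fin 10) K 1 := hg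
  rw [homogeneousSubmodule_one_eq_span_X, Submodule.mem_span_range_iff_exists_fun] at this
  obtain ⟨a, ha⟩ := this
  refine ⟨a, ?_⟩
  rw [← ha]
  exact Finset.sum_congr rfl fun i _ => by rw [smul_eq_C_mul]

theorem sbs_coeff (x : Fin 3) (a : Fin 10 → K)
    (h : aeval (sbs K x) (∑ i, C (a i) * X i : MvPolynomial (Fin 10) K) = 0) (k : Fin 10) :
    ∑ i, a i * prj x (Pi.single k 1) i = 0 := by
  have := congrArg (aeval (Pi.single k 1 : Fin 10 → K)) h
  simp only [map_sum, map_mul, aeval_X, map_zero, Algebra.algebraMap_self,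
    RingHom.id_apply, algHom_C, algebraMap_eq] at this
  exact this


/-- test substitution -/
noncomputable def tst (K : Type u) [Field K] (i : Fin 10) : Polynomial K :=
  if i = 0 ∨ i = 3 then Polynomial.X else if i = 1 ∨ i = 2 then 0 else 1

theorem coeff_facts (x : Fin 3) (g : MvPolynomial (Fin 10) K) (hg : g.IsHomogeneous 1)
    (h : aeval (sbs K x) g = 0) : ∃ a : Fin 10 → K, g = ∑ i, C (a i) * X i ∧
      (∀ k, ∑ i, a i * prj x (Pi.single k 1) i = 0) := by
  obtain ⟨a, ha⟩ := linear_form hg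
  exact ⟨a, ha, fun k => sbs_coeff x a (by rw [← ha]; exact h) k⟩

theorem prj0 (k i : Fin 10) : prj (K := K) 0 (Pi.single k 1) i =
    if i = 1 ∨ i = 3 then 0 else if i = k then 1 else 0 := by
  simp only [prj, sbs]
  split_ifs <;> simp [Pi.single_apply, *]

theorem prj1 (k i : Fin 10) : prj (K := K) 1 (Pi.single k 1) i =
    if i = 0 ∨ i = 2 then 0 else if i = k then 1 else 0 := by
  simp only [prj, sbs]
  split_ifs <;> simp [Pi.single_apply, *]

theorem prj2 (k i : Fin 10) : prj (K := K) 2 (Pi.single k 1) i =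
    if i = 1 then (if 0 = k then 1 else 0) else if i = 3 then (if 2 = k then 1 else 0) else
      if i = k then 1 else 0 := by
  simp only [prj, sbs]
  split_ifs <;> simp [Pi.single_apply, *]

theorem a_facts0 (a : Fin 10 → K) (h : ∀ k, ∑ i, a i * prj 0 (Pi.single k 1) i = 0) :
    a 0 = 0 ∧ a 2 = 0 ∧ ∀ i, 4 ≤ i → a i = 0 := by
  have key : ∀ k : Fin 10, ¬ (k = 1 ∨ k = 3) → a k = 0 := by
    intro k hk
    have := h k
    rw [Finset.sum_eq_single k] at this
    · simpa [prj0, hk] using this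
    · intro i _ hi
      simp [prj0, hi]
    · simp
  exact ⟨key 0 (by decide), key 2 (by decide), fun i hi => key i (by revert i; decide)⟩

theorem a_facts1 (a : Fin 10 → K) (h : ∀ k, ∑ i, a i * prj 1 (Pi.single k 1) i = 0) :
    a 1 = 0 ∧ a 3 = 0 ∧ ∀ i, 4 ≤ i → a i = 0 := by
  have key : ∀ k : Fin 10, ¬ (k = 0 ∨ k = 2) → a k = 0 := by
    intro k hk
    have := h k
    rw [Finset.sum_eq_single k] at this
    · simpa [prj1, hk] using this
    · intro i _ hi
      simp [prj1, hi]
    · simp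
  exact ⟨key 1 (by decide), key 3 (by decide), fun i hi => key i (by revert i; decide)⟩

theorem a_facts2 (a : Fin 10 → K) (h : ∀ k, ∑ i, a i * prj 2 (Pi.single k 1) i = 0) :
    a 0 + a 1 = 0 ∧ a 2 + a 3 = 0 ∧ ∀ i, 4 ≤ i → a i = 0 := by
  refine ⟨?_, ?_, ?_⟩
  · have := h 0
    simpa [prj2, Fin.sum_univ_succ] using this
  · have := h 2
    simpa [prj2, Fin.sum_univ_succ] using this
  · have key : ∀ k : Fin 10, (k ≠ 0 ∧ k ≠ 1 ∧ k ≠ 2 ∧ k ≠ 3) → a k = 0 := by
      rintro k ⟨h0, h1, h2, h3⟩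
      have := h k
      rw [Finset.sum_eq_single k] at this
      · simpa [prj2, h1, h3] using this
      · intro i _ hi
        simp [prj2, hi, h0.symm, h2.symm]
      · simp
    exact fun i hi => key i (by revert i; decide)

theorem tst_dvd (a : Fin 10 → K) (h : ∀ i, 4 ≤ i → a i = 0) :
    (Polynomial.X : Polynomial K) ∣
      aeval (tst K) (∑ i, C (a i) * X i : MvPolynomial (Fin 10) K) := by
  rw [map_sum]
  apply Finset.dvd_sum
  intro i _
  rw [map_mul, aeval_X]
  by_cases hi : 4 ≤ i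
  · rw [h i hi]; simp
  · apply Dvd.dvd.mul_left
    simp only [tst]
    split_ifs with h1 h2
    · exact dvd_refl _
    · exact dvd_zero _
    · exfalso
      revert i
      decide

theorem sum_zero (a : Fin 10 → K) (h0 : a 0 = 0) (h1 : a 1 = 0) (h2 : a 2 = 0) (h3 : a 3 = 0)
    (h : ∀ i, 4 ≤ i → a i = 0) : (∑ i, C (a i) * X i : MvPolynomial (Fin 10) K) = 0 := by
  apply Finset.sum_eq_zero
  intro i _
  have key : ∀ i : Fin 10, i = 0 ∨ i = 1 ∨ i = 2 ∨ i = 3 ∨ 4 ≤ i := by decide
  rcases key i with rfl | rfl | rfl | rfl | hi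
  · rw [h0]; simp
  · rw [h1]; simp
  · rw [h2]; simp
  · rw [h3]; simp
  · rw [h i hi]; simp

theorem coeff_unique (a b : Fin 10 → K)
    (h : (∑ i, C (a i) * X i : MvPolynomial (Fin 10) K) = ∑ i, C (b i) * X i) : a = b := by
  funext k
  have := congrArg (aeval (Pi.single k 1 : Fin 10 → K)) h
  simpa [Pi.single_apply] using this

theorem dvd_each (x : Fin 3) (g : MvPolynomial (Fin 10) K) (hg : g.IsHomogeneous 1)
    (h : aeval (sbs K x) g = 0) : (Polynomial.X : Polynomial K) ∣ aeval (tst K) g := by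
  obtain ⟨a, rfl, ha⟩ := coeff_facts x g hg h
  apply tst_dvd
  match x, ha with
  | 0, ha => exact (a_facts0 a ha).2.2
  | 1, ha => exact (a_facts1 a ha).2.2
  | 2, ha => exact (a_facts2 a ha).2.2

theorem zero_of_two (x y : Fin 3) (hxy : x ≠ y) (g : MvPolynomial (Fin 10) K)
    (hg : g.IsHomogeneous 1) (hx : aeval (sbs K x) g = 0) (hy : aeval (sbs K y) g = 0) :
    g = 0 := by
  obtain ⟨a, ha, h1⟩ := coeff_facts x g hg hx
  obtain ⟨b, hb, h2⟩ := coeff_facts y g hg hy
  have hab := coeff_unique a b (by rw [← ha, hb])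
  subst hab
  rw [ha]
  have key : ∀ x y : Fin 3, x ≠ y → (x = 0 ∧ y = 1) ∨ (x = 1 ∧ y = 0) ∨ (x = 0 ∧ y = 2) ∨
    (x = 2 ∧ y = 0) ∨ (x = 1 ∧ y = 2) ∨ (x = 2 ∧ y = 1) := by decide
  rcases key x y hxy with ⟨rfl, rfl⟩ | ⟨rfl, rfl⟩ | ⟨rfl, rfl⟩ | ⟨rfl, rfl⟩ | ⟨rfl, rfl⟩ |
    ⟨rfl, rfl⟩
  · have e1 := a_facts0 a h1
    have e2 := a_facts1 a h2
    exact sum_zero a e1.1 e2.1 e1.2.1 e2.2.1 e1.2.2
  · have e1 := a_facts0 a h2
    have e2 := a_facts1 a h1
    exact sum_zero a e1.1 e2.1 e1.2.1 e2.2.1 e1.2.2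
  · have e1 := a_facts0 a h1
    have e2 := a_facts2 a h2
    exact sum_zero a e1.1 (by simpa [e1.1] using e2.1) e1.2.1 (by simpa [e1.2.1] using e2.2.1)
      e1.2.2
  · have e1 := a_facts0 a h2
    have e2 := a_facts2 a h1
    exact sum_zero a e1.1 (by simpa [e1.1] using e2.1) e1.2.1 (by simpa [e1.2.1] using e2.2.1)
      e1.2.2
  · have e1 := a_facts1 a h1
    have e2 := a_facts2 a h2
    exact sum_zero a (by simpa [e1.1] using e2.1) e1.1 (by simpa [e1.2.1] using e2.2.1) e1.2.1
      e1.2.2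
  · have e1 := a_facts1 a h2
    have e2 := a_facts2 a h1
    exact sum_zero a (by simpa [e1.1] using e2.1) e1.1 (by simpa [e1.2.1] using e2.2.1) e1.2.1
      e1.2.2

/-- Products of linear forms in the ideal have order at least three. -/
theorem cube_dvd [Infinite K] (l : List (MvPolynomial (Fin 10) K))
    (hl : ∀ g ∈ l, g.IsHomogeneous 1)
    (h : l.prod ∈ vanishingIdeal K (secantUnion 3 (Crv K))) :
    (Polynomial.X ^ 3 : Polynomial K) ∣ aeval (tst K) l.prod := by
  classical
  by_cases h0 : l.prod = 0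
  · rw [h0, map_zero]; exact dvd_zero _
  have hne : ∀ g ∈ l, g ≠ 0 := by
    rintro g hg rfl
    exact h0 (List.prod_eq_zero_iff.mpr hg)
  have hex : ∀ x : Fin 3, ∃ g ∈ l, aeval (sbs K x) g = 0 := by
    intro x
    have := sbs_zero x _ h
    rw [map_list_prod, List.prod_eq_zero_iff, List.mem_map] at this
    exact this
  choose g hg hgz using hex
  have hdist : ∀ x y, x ≠ y → g x ≠ g y := by
    intro x y hxy he
    exact hne _ (hg x) (zero_of_two x y hxy _ (hl _ (hg x)) (hgz x) (he ▸ hgz y))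
  have e1 : g 1 ∈ l.erase (g 0) :=
    (List.mem_erase_of_ne (hdist 1 0 (by decide))).mpr (hg 1)
  have e2 : g 2 ∈ (l.erase (g 0)).erase (g 1) :=
    (List.mem_erase_of_ne (hdist 2 1 (by decide))).mpr
      ((List.mem_erase_of_ne (hdist 2 0 (by decide))).mpr (hg 2))
  rw [← List.prod_erase (hg 0), ← List.prod_erase e1, ← List.prod_erase e2]
  simp only [map_mul]
  have d0 := dvd_each 0 _ (hl _ (hg 0)) (hgz 0)
  have d1 := dvd_each 1 _ (hl _ (hg 1)) (hgz 1)
  have d2 := dvd_each 2 _ (hl _ (hg 2)) (hgz 2)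
  have : (Polynomial.X ^ 3 : Polynomial K) = Polynomial.X * (Polynomial.X * Polynomial.X) := by
    ring
  rw [this]
  exact mul_dvd_mul d0 (mul_dvd_mul d1 (Dvd.dvd.mul_right d2 _))

theorem FF_tst : aeval (tst K) (FF K) = Polynomial.X ^ 2 := by
  simp [FF, tst, st]
  ring

theorem not_generated [Infinite K] :
    ¬ GeneratedByProducts (vanishingIdeal K (secantVariety 3 (Crv K))) := by
  rintro ⟨T, hT, hspan⟩
  have hsub : secantUnion 3 (Crv K) ⊆ secantVariety 3 (Crv K) :=
    zeroLocus_vanishingIdeal_le _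
  have hle : vanishingIdeal K (secantVariety 3 (Crv K)) ≤
      Ideal.comap (aeval (tst K)).toRingHom (Ideal.span {(Polynomial.X ^ 3 : Polynomial K)}) := by
    rw [← hspan, Ideal.span_le]
    intro f hf
    obtain ⟨l, hl, rfl⟩ := hT f hf
    have hmem : l.prod ∈ vanishingIdeal K (secantVariety 3 (Crv K)) := by
      rw [← hspan]
      exact Ideal.subset_span hf
    have h1 := cube_dvd l hl (vanishingIdeal_anti_mono hsub hmem)
    rw [SetLike.mem_coe, Ideal.mem_comap, Ideal.mem_span_singleton]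
    exact h1
  have hF : FF K ∈ vanishingIdeal K (secantVariety 3 (Crv K)) :=
    le_vanishingIdeal_zeroLocus _ FF_vanish
  have h2 := hle hF
  rw [Ideal.mem_comap, Ideal.mem_span_singleton] at h2
  change (Polynomial.X ^ 3 : Polynomial K) ∣ aeval (tst K) (FF K) at h2
  rw [FF_tst, Polynomial.X_pow_dvd_iff] at h2
  have := h2 2 (by norm_num)
  simp at this

end Pool.Agent.H74.Secant
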