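import Mathlib
import Pool.Agent.H74.Secant.Final

set_option autoImplicit false

open MvPolynomial

namespace Pool.Agent.H74.Secant

universe u

open Vx

/-- adjacency of the theta graph -/
def adjB : Vx → Vx → Bool
  | S s, E _ s' => s = s'
  | E _ s', S s => s = s'
  | E x _, M x' => x = x'
  | M x', E x _ => x = x'
  | _, _ => false

def TG : SimpleGraph Vx where
  Adj u v := adjB u v = true
  symm := ⟨by decide⟩
  loopless := ⟨by decide⟩

instance : DecidableRel TG.Adj := fun u v => by unfold TG; infer_instance

def starLabel (s : Fin 2) : Fin 3 → Label 10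
  | 0 => .single (st s 0)
  | 1 => .single (st s 1)
  | 2 => .diff (st s 0) (st s 1)

def lab2 : Vx → Vx → Label 10
  | S s, E x _ => starLabel s x
  | E x _, S s => starLabel s x
  | E x s, M _ => .single (inn x s)
  | M _, E x s => .single (inn x s)
  | _, _ => .single 0

theorem lab2_symm : ∀ u v, lab2 u v = lab2 v u := by
  intro u v
  cases u <;> cases v <;> rfl

def TL : Sym2 Vx → Label 10 := Sym2.lift ⟨lab2, lab2_symm⟩

theorem deg_S : ∀ s, TG.degree (S s) = 3 := by decide
theorem deg_E : ∀ x s, TG.degree (E x s) = 2 := by decide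
theorem deg_M : ∀ x, TG.degree (M x) = 2 := by decide

theorem deg_three {v : Vx} (h : TG.degree v = 3) : ∃ s, v = S s := by
  match v, h with
  | S s, _ => exact ⟨s, rfl⟩
  | E x s, h => rw [deg_E] at h; omega
  | M x, h => rw [deg_M] at h; omega

theorem ext_eq : extEdges TG = TG.edgeSet := by
  rw [extEdges, Set.union_eq_left]
  rintro e ⟨v, hv, _⟩
  match v, hv with
  | S s, h => rw [deg_S] at h; omega
  | E x s, h => rw [deg_E] at h; omega
  | M x, h => rw [deg_M] at h; omega

theorem conn : TG.Connected := by
  have h0 : ∀ x, TG.Reachable (S 0) (E x 0) := fun x => SimpleGraph.Adj.reachable (by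
    revert x; decide)
  have h1 : ∀ x, TG.Reachable (S 0) (M x) := fun x => (h0 x).trans (SimpleGraph.Adj.reachable (by
    revert x; decide))
  have h2 : ∀ x, TG.Reachable (S 0) (E x 1) := fun x => (h1 x).trans
    (SimpleGraph.Adj.reachable (by revert x; decide))
  have h3 : TG.Reachable (S 0) (S 1) := (h2 0).trans (SimpleGraph.Adj.reachable (by decide))
  have h : ∀ v, TG.Reachable (S 0) v := by
    intro v
    match v with
    | S s =>
      rcases two_cases 0 s with rfl | rfl
      · exact SimpleGraph.Reachable.refl _
      · exact h3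
    | E x s =>
      rcases two_cases 0 s with rfl | rfl
      · exact h0 x
      · exact h2 x
    | M x => exact h1 x
  exact { preconnected := fun u v => (h u).symm.trans (h v), nonempty := ⟨S 0⟩ }

theorem no_tri : ∀ a b c : Vx, ¬ (adjB a b = true ∧ adjB a c = true ∧ adjB b c = true) := by
  decide

theorem adm : IsAdmissible TG where
  connected := conn
  triangle_free := by
    intro t ht
    obtain ⟨a, b, c, h1, h2, h3, _⟩ := SimpleGraph.is3Clique_iff.mp ht
    exact no_tri a b c ⟨h1, h2, h3⟩
  degree_le := by
    intro v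
    match v with
    | S s => rw [deg_S]
    | E x s => rw [deg_E]; omega
    | M x => rw [deg_M]; omega
  exists_degree_lt := ⟨M 0, by rw [deg_M]; omega⟩
  three_le_length := by
    intro u v hne hu hv p _
    obtain ⟨s, rfl⟩ := deg_three hu
    obtain ⟨s', rfl⟩ := deg_three hv
    have hs : s ≠ s' := fun h => hne (by rw [h])
    cases p with
    | nil => exact absurd rfl hne
    | cons h p =>
      cases p with
      | nil =>
        exfalso
        have : ∀ s s', ¬ adjB (S s) (S s') = true := by decide
        exact this _ _ h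
      | cons h' p =>
        cases p with
        | nil =>
          exfalso
          have : ∀ s s', s ≠ s' → ∀ w, ¬ (adjB (S s) w = true ∧ adjB w (S s') = true) := by decide
          exact this _ _ hs _ ⟨h, h'⟩
        | cons h'' p =>
          simp only [SimpleGraph.Walk.length_cons]
          omega

theorem edge_form {e : Sym2 Vx} (he : e ∈ extEdges TG) :
    ∃ x s, e = s(S s, E x s) ∨ e = s(E x s, M x) := by
  rw [ext_eq] at he
  induction e using Sym2.ind with
  | _ u v =>
    have h : adjB u v = true := he
    have key : ∀ u v, adjB u v = true → ∃ (x : Fin 3) (s : Fin 2),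
        (u = S s ∧ v = E x s) ∨ (u = E x s ∧ v = S s) ∨ (u = E x s ∧ v = M x) ∨
        (u = M x ∧ v = E x s) := by decide
    obtain ⟨x, s, ⟨rfl, rfl⟩ | ⟨rfl, rfl⟩ | ⟨rfl, rfl⟩ | ⟨rfl, rfl⟩⟩ := key u v h
    · exact ⟨x, s, Or.inl rfl⟩
    · exact ⟨x, s, Or.inl Sym2.eq_swap⟩
    · exact ⟨x, s, Or.inr rfl⟩
    · exact ⟨x, s, Or.inr Sym2.eq_swap⟩

theorem labelling : IsLabelling TG TL where
  card := by
    have h1 := TG.sum_degrees_eq_twice_card_edges
    have h2 : ∑ v, TG.degree v = 24 := by decide
    rw [h2] at h1
    have h3 : Fintype.card Vx = 11 := by decide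
    rw [h3]
    omega
  trivalent := by
    intro v hv
    obtain ⟨s, rfl⟩ := deg_three hv
    refine ⟨E 0 s, E 1 s, E 2 s, st s 0, st s 1, ?_, st_ne s, rfl, rfl, rfl⟩
    intro w
    change adjB (S s) w = true ↔ _
    revert s w
    decide
  other := by
    intro e he hdeg
    obtain ⟨x, s, rfl | rfl⟩ := edge_form he
    · exact absurd (deg_S s) (hdeg _ (Sym2.mem_mk_left _ _))
    · exact ⟨inn x s, rfl⟩
  unused := by
    intro e he e' he' hne hidx
    obtain ⟨x, s, rfl | rfl⟩ := edge_form he
    · obtain ⟨x', s', rfl | rfl⟩ := edge_form he'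
      · have key : ∀ (x : Fin 3) (s : Fin 2) (x' : Fin 3) (s' : Fin 2),
            (∃ i, i ∈ (starLabel s x).indices ∧ i ∈ (starLabel s' x').indices) → s = s' := by
          decide
        have := key x s x' s' hidx
        subst this
        exact ⟨S s, Sym2.mem_mk_left _ _, Sym2.mem_mk_left _ _, deg_S s⟩
      · exfalso
        have key : ∀ (x : Fin 3) (s : Fin 2) (x' : Fin 3) (s' : Fin 2),
            ¬ (∃ i, i ∈ (starLabel s x).indices ∧
              i ∈ (Label.single (inn x' s') : Label 10).indices) := by
          decide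
        exact key x s x' s' hidx
    · obtain ⟨x', s', rfl | rfl⟩ := edge_form he'
      · exfalso
        have key : ∀ (x : Fin 3) (s : Fin 2) (x' : Fin 3) (s' : Fin 2),
            ¬ (∃ i, i ∈ (Label.single (inn x s) : Label 10).indices ∧
              i ∈ (starLabel s' x').indices) := by
          decide
        exact key x s x' s' hidx
      · exfalso
        have key : ∀ (x : Fin 3) (s : Fin 2) (x' : Fin 3) (s' : Fin 2),
            (∃ i, i ∈ (Label.single (inn x s) : Label 10).indices ∧
              i ∈ (Label.single (inn x' s') : Label 10).indices) → x = x' ∧ s = s' := by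
          decide
        obtain ⟨rfl, rfl⟩ := key x s x' s' hidx
        exact hne rfl

variable {K : Type u} [Field K]

theorem adj_ES : ∀ s, adjB (E 2 s) (S s) = true := by decide

theorem lineCone_eq (v : Vx) : lineCone TG TL K v = (Ln K v : Set (Fin 10 → K)) := by
  ext z
  have h1 : (∀ i, (∀ e ∈ extEdges TG, v ∈ e → i ∉ (TL e).indices) → z i = 0) ↔
      (∀ i, i ∉ supp v → z i = 0) := by
    have key : ∀ i, (∀ e ∈ extEdges TG, v ∈ e → i ∉ (TL e).indices) ↔ i ∉ supp v := by
      intro i
      have dec : ∀ (v : Vx) (i : Fin 10), (∀ w, adjB v w = true → i ∉ (lab2 v w).indices) ↔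
        i ∉ supp v := by decide
      rw [← dec v i, ext_eq]
      constructor
      · intro h w hw
        exact h s(v, w) hw (Sym2.mem_mk_left _ _)
      · intro h e he hv
        obtain ⟨w, rfl⟩ := Sym2.mem_iff_exists.mp hv
        exact h w he
    exact forall_congr' fun i => by rw [key i]
  have h2 : (TG.degree v ≠ 3 → ∀ e ∈ extEdges TG, v ∈ e → ∀ j k, TL e = .diff j k → z j = z k) ↔
      (∀ s, v = E 2 s → z (st s 0) = z (st s 1)) := by
    constructor
    · rintro h s rfl
      refine h (by rw [deg_E]; omega) s(E 2 s, S s) ?_ (Sym2.mem_mk_left _ _) _ _ rfl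
      rw [ext_eq]
      exact adj_ES s
    · intro h hdeg e he hv j k hjk
      rw [ext_eq] at he
      obtain ⟨w, rfl⟩ := Sym2.mem_iff_exists.mp hv
      have he' : adjB v w = true := he
      match v, w, hdeg, he', hjk with
      | S s, _, hdeg, _, _ => exact absurd (deg_S s) hdeg
      | E x s', S s, _, he', hjk =>
        have hs : s = s' := by simpa [adjB] using he'
        subst hs
        match x, hjk with
        | 0, hjk => cases hjk
        | 1, hjk => cases hjk
        | 2, hjk =>
          cases hjk
          exact h s rfl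
      | E x s', M _, _, _, hjk => cases hjk
      | M x, E _ _, _, _, hjk => cases hjk
      | E x s', E _ _, _, he', _ => cases he'
      | M x, S _, _, he', _ => cases he'
      | M x, M _, _, he', _ => cases he'
  exact and_congr h1 h2

theorem graphCurve_eq : graphCurve TG TL K = Crv K := by
  simp only [graphCurve, Crv, lineCone_eq]

theorem main (K : Type u) [Field K] [IsAlgClosed K] [CharZero K] :
    ∃ (V : Type) (_ : Fintype V) (G : SimpleGraph V) (_ : DecidableRel G.Adj) (N : ℕ)
      (lab : Sym2 V → Label N) (k : ℕ),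
      IsAdmissible G ∧ IsLabelling G lab ∧ 1 ≤ k ∧
        ¬ GeneratedByProducts (vanishingIdeal K (secantVariety k (graphCurve G lab K))) := by
  refine ⟨Vx, inferInstance, TG, inferInstance, 10, TL, 3, adm, labelling, by norm_num, ?_⟩
  rw [graphCurve_eq]
  exact not_generated

end Pool.Agent.H74.Secant
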